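import Mathlib

/-!
# Nim sums over finitely many components
-/

namespace Pool.Agent.Q224.HT

/-- the nim sum of the first `n` values -/
def xs : ℕ → (ℕ → ℕ) → ℕ
  | 0, _ => 0
  | n + 1, f => xs n f ^^^ f n

theorem xs_congr {n : ℕ} {f g : ℕ → ℕ} (h : ∀ j, j < n → f j = g j) : xs n f = xs n g := by
  induction n with
  | zero => rfl
  | succ n ih =>
    rw [xs, xs, ih fun j hj => h j (by omega), h n (by omega)]

theorem xs_update {n j : ℕ} (hj : j < n) (f : ℕ → ℕ) (a : ℕ) :
    xs n (Function.update f j a) = xs n f ^^^ f j ^^^ a := by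
  induction n with
  | zero => omega
  | succ n ih =>
    by_cases h : j = n
    · subst h
      rw [xs, xs, Function.update_self, xs_congr (g := f) fun i hi => by
        rw [Function.update_of_ne (by omega)]]
      rw [Nat.xor_assoc (xs j f), Nat.xor_self, Nat.xor_zero]
    · rw [xs, xs, ih (by omega), Function.update_of_ne (by omega)]
      rw [Nat.xor_assoc (xs n f ^^^ f j), Nat.xor_comm a (f n), Nat.xor_assoc (xs n f),
        Nat.xor_assoc (xs n f), Nat.xor_assoc (xs n f)]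
      congr 1
      rw [← Nat.xor_assoc, Nat.xor_comm (f j) (f n)]

theorem top_cases {a b s : ℕ} (h : (a ^^^ b) ^^^ s < a ^^^ b) : a ^^^ s < a ∨ b ^^^ s < b := by
  rcases Nat.lt_xor_cases h with h1 | h1
  · left
    have : a ^^^ b ^^^ s ^^^ b = a ^^^ s := by
      rw [Nat.xor_comm (a ^^^ b ^^^ s) b, ← Nat.xor_assoc, ← Nat.xor_assoc, Nat.xor_comm b a,
        Nat.xor_assoc a b b, Nat.xor_self, Nat.xor_zero]
    rwa [this] at h1
  · right
    have : a ^^^ b ^^^ s ^^^ a = b ^^^ s := by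
      rw [Nat.xor_comm (a ^^^ b ^^^ s) a, ← Nat.xor_assoc, ← Nat.xor_assoc, Nat.xor_self,
        Nat.zero_xor]
    rwa [this] at h1

theorem xs_top {n : ℕ} {f : ℕ → ℕ} {s : ℕ} (h : xs n f ^^^ s < xs n f) :
    ∃ j, j < n ∧ f j ^^^ s < f j := by
  induction n with
  | zero => simp [xs] at h
  | succ n ih =>
    rw [xs] at h
    rcases top_cases h with h1 | h1
    · obtain ⟨j, hj, h2⟩ := ih h1
      exact ⟨j, by omega, h2⟩
    · exact ⟨n, by omega, h1⟩

/-- Nim: a component which can be lowered. -/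
theorem nim_move {n : ℕ} {f : ℕ → ℕ} {c : ℕ} (h : c ^^^ xs n f ≠ 0) :
    c ^^^ (c ^^^ xs n f) < c ∨ ∃ j, j < n ∧ f j ^^^ (c ^^^ xs n f) < f j := by
  have h1 : (c ^^^ xs n f) ^^^ (c ^^^ xs n f) < c ^^^ xs n f := by
    rw [Nat.xor_self]
    exact Nat.pos_of_ne_zero h
  rcases top_cases h1 with h2 | h2
  · exact Or.inl h2
  · exact Or.inr (xs_top h2)

end Pool.Agent.Q224.HT

namespace Pool.Agent.Q224.HT

theorem xor_le_add' (a b : ℕ) : a ^^^ b ≤ a + b := by
  induction a using Nat.strong_induction_on generalizing b with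
  | _ a ih =>
    by_cases ha : a = 0
    · subst ha; simp
    · have h1 : (a ^^^ b) / 2 = a / 2 ^^^ b / 2 := Nat.xor_div_two ..
      have h2 := ih (a / 2) (by omega) (b / 2)
      have h3 := Nat.xor_mod_two_eq (m := a) (n := b)
      omega

theorem one_xor_even (m : ℕ) : 1 ^^^ (2 * m) = 2 * m + 1 := by
  have h1 : (1 ^^^ (2 * m)) / 2 = 1 / 2 ^^^ (2 * m) / 2 := Nat.xor_div_two ..
  have h3 := Nat.xor_mod_two_eq (m := 1) (n := 2 * m)
  have h4 : (2 * m) / 2 = m := by omega
  rw [h4] at h1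
  simp at h1
  omega

end Pool.Agent.Q224.HT
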