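import Pool.Agent.Q224.HT.Defs
import Pool.Agent.Q224.HT.Xs
import Pool.Agent.H578R2.ANN.Main

/-!
# Hit: the board of an alternating register machine
-/

namespace Pool.Agent.Q224.HT

open Pool.Agent.NPC.ANN (Forces rl pm us up ok3 ok3_iff rl_mem pm_mem up_lt upd_take upd_nil
  upd_take_update)
open Pool.Agent.H820R2.SS

/-- Vertices. -/
inductive V : Type
  | G | I | A | B | D0 | D1
  | e (k : ℕ)
  | R (r : ℕ)
  | T (r j : ℕ) (b : Bool)
  | Q (r j : ℕ) (b : Bool)
  | X (r i k : ℕ)
  | U (r i k : ℕ)
  | S (r i k : ℕ)
  | Z (r i k : ℕ)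
  | p (j : ℕ) (b : Bool)
  | q (j : ℕ)
  | d (j m : ℕ)
  | z (j : ℕ)
  deriving DecidableEq

/-- number of exits -/
def KK (M : ARM) : ℕ := 4 * M.1.length + 4

/-- the vertices which are used -/
def ok (M : ARM) : V → Bool
  | .e k => decide (k < KK M)
  | .R r => decide (r < M.2.2.length)
  | .T r j b => decide (r < M.2.2.length) && (decide (j < M.1.length) &&
      decide ((j, b) ∈ (rl M r).2.1))
  | .Q r j b => decide (r < M.2.2.length) && (decide (j < M.1.length) &&
      decide ((j, b) ∈ (rl M r).2.1))
  | .X r i k => ok3 M r i k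
  | .U r i k => decide (0 < k) && ok3 M r i k
  | .S r i k => decide (0 < k) && ok3 M r i k
  | .Z r i k => decide (0 < k) && ok3 M r i k
  | .p j _ => decide (j < M.1.length)
  | .q j => decide (j < M.1.length)
  | .d j m => decide (j < M.1.length) && decide (m < 2 * j + 2)
  | .z j => decide (j < M.1.length)
  | _ => true

/-- exits of the control token -/
def exi (M : ARM) : V → ℕ → Bool
  | .e k, m => decide (m < k)
  | .D0, _ => false
  | .D1, _ => false
  | .p _ _, _ => false
  | .q _, _ => false
  | .d _ _, _ => false
  | .z _, _ => false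
  | .U r i k, m => !decide (m = 1) && !decide (m = 2 * (up M r i k).1 + 3)
  | .S r i k, m => !decide (m = 1) && !decide (m = 2 * (up M r i k).1 + 3)
  | _, m => !decide (m = 1)

/-- edges of the control token -/
def cadj (M : ARM) : V → V → Bool
  | v, .e m => exi M v m
  | .G, .A => true
  | .G, .R r => decide ((rl M r).1 = M.2.1)
  | .I, .G => true
  | .A, .B => true
  | .B, .A => true
  | .R r, .T r' _ _ => decide (r = r')
  | .R r, .X r' i k => decide (r = r') && decide (k = (us M r' i).length)
  | .T r j b, .Q r' j' b' => decide (r = r') && (decide (j = j') && decide (b = b'))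
  | .X r i k, .U r' i' k' => decide (r = r') && (decide (i = i') && decide (k = k'))
  | .X r i k, .R r' => decide (k = 0) && decide ((rl M r').1 = (pm M r i).1)
  | .U r i k, .S r' i' k' => decide (r = r') && (decide (i = i') && decide (k = k'))
  | .S r i k, .Z r' i' k' => decide (r = r') && (decide (i = i') && decide (k = k'))
  | .Z r i k, .X r' i' k' => decide (r = r') && (decide (i = i') && decide (k = k' + 1))
  | _, _ => false

/-- edges of the other tokens -/
def radj (M : ARM) : V → V → Bool
  | .p j _, .q j' => decide (j = j')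
  | .p j b, .Q _ j' b' => decide (j = j') && decide (b' = !b)
  | .p j b, .S r i k => decide (j = (up M r i k).1) && decide (b = !(up M r i k).2)
  | .q j, .p j' _ => decide (j = j')
  | .q j, .d j' _ => decide (j = j')
  | .d j m, .d j' m' => decide (j = j') && decide (m' < m)
  | .d j m, .U r i k => decide (m = 0) && decide (j = (up M r i k).1)
  | .d j m, .S r i k => decide (m = 0) && decide (j = (up M r i k).1)
  | .Q _ j _, .z j' => decide (j = j')
  | .U r i k, .z j => decide (j = (up M r i k).1)
  | .S r i k, .z j => decide (j = (up M r i k).1)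
  | .D1, .D0 => true
  | _, _ => false

/-- The edges of tokens of type `i`. -/
def EE (M : ARM) (i : ℕ) (u v : V) : Prop :=
  ok M u = true ∧ ok M v = true ∧
    (bif decide (i = 0) then cadj M u v else decide (i = 1) && radj M u v) = true

/-- the only token of type 1 which can reach a vertex -/
def own (M : ARM) : V → Option ℕ
  | .Q _ j _ => some j
  | .U r i k => some (up M r i k).1
  | .S r i k => some (up M r i k).1
  | .p j _ => some j
  | .q j => some j
  | .d j _ => some j
  | .z j => some j
  | .D0 => some M.1.length
  | .D1 => some M.1.length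
  | _ => none

/-- nim values of the tokens of type 1 -/
def gr : V → ℕ
  | .q j => 2 * j + 2
  | .d _ m => m
  | .Q _ _ _ => 1
  | .U _ _ _ => 1
  | .S _ _ _ => 1
  | .D1 => 1
  | _ => 0

/-- potentials of the tokens of type 1 -/
def ph : V → ℕ
  | .q j => 2 * j + 5
  | .p j _ => 2 * j + 4
  | .d _ m => m + 1
  | .Q _ _ _ => 1
  | .U _ _ _ => 1
  | .S _ _ _ => 1
  | .D1 => 1
  | _ => 0

/-- vertices of the regions -/
def reg : V → Bool
  | .D0 => true
  | .D1 => true
  | .p _ _ => true
  | .q _ => true
  | .d _ _ => true
  | .z _ => true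
  | _ => false

/-- Abstract positions: place of the control token, places of the other tokens. -/
abbrev St : Type := Option V × (ℕ → V)

/-- The position on the board. -/
def place (M : ARM) (s : St) (v : V) : Option ℕ :=
  if s.1 = some v then some 0 else
    match own M v with
    | some j => if s.2 j = v then some 1 else none
    | none => none

/-- the tokens of type 1 are where they can be -/
def Val (M : ARM) (ρ : ℕ → V) : Prop :=
  (∀ j, j ≤ M.1.length → ok M (ρ j) = true ∧ own M (ρ j) = some j) ∧
    ∀ j, M.1.length < j → ρ j = .D1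

variable {M : ARM}

theorem radj_ne {w w' : V} (h : radj M w w' = true) : w ≠ w' := by
  rintro rfl
  cases w <;> simp [radj] at h

theorem cadj_ne {v v' : V} (h : cadj M v v' = true) : v ≠ v' := by
  rintro rfl
  cases v <;> simp [cadj, exi] at h

theorem radj_own {w w' : V} (h : radj M w w' = true) : own M w = own M w' := by
  cases w <;> cases w' <;> simp_all [radj, own]

theorem cadj_reg {v v' : V} (h : cadj M v v' = true) : reg v' = false := by
  cases v' <;> cases v <;> simp_all [cadj, reg]

theorem cadj_regl {v v' : V} (h : cadj M v v' = true) : reg v = false := by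
  cases v <;> cases v' <;> simp_all [cadj, reg, exi]

theorem Val.own_eq {ρ : ℕ → V} (h : Val M ρ) {j : ℕ} {w : V} (hw : own M w = some j)
    (he : ρ j = w) : j ≤ M.1.length := by
  by_contra hno
  rw [h.2 j (by omega)] at he
  subst he
  simp only [own, Option.some.injEq] at hw
  omega

theorem Val.update {ρ : ℕ → V} (h : Val M ρ) {j : ℕ} (hj : j ≤ M.1.length) {w : V}
    (hw : ok M w = true) (ho : own M w = some j) : Val M (Function.update ρ j w) := by
  refine ⟨fun i hi => ?_, fun i hi => ?_⟩
  · by_cases hij : i = j
    · subst hij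
      rw [Function.update_self]
      exact ⟨hw, ho⟩
    · rw [Function.update_of_ne hij]
      exact h.1 i hi
  · rw [Function.update_of_ne (by omega)]
    exact h.2 i hi

theorem place_zero {s : St} {v : V} (h : s.1 = some v) : place M s v = some 0 := by
  unfold place
  rw [if_pos h]

theorem place_none {s : St} {v : V} (h : s.1 ≠ some v) (h2 : ∀ j, own M v = some j → s.2 j ≠ v) :
    place M s v = none := by
  unfold place
  rw [if_neg h]
  cases ho : own M v with
  | none => rfl
  | some j => exact if_neg (h2 j ho)

theorem place_one {s : St} {v : V} {j : ℕ} (h : s.1 ≠ some v) (h2 : own M v = some j)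
    (h3 : s.2 j = v) : place M s v = some 1 := by
  unfold place
  rw [if_neg h, h2]
  exact if_pos h3

theorem place_cases {s : St} {v : V} {i : ℕ} (h : place M s v = some i) :
    (i = 0 ∧ s.1 = some v) ∨ (i = 1 ∧ s.1 ≠ some v ∧ ∃ j, own M v = some j ∧ s.2 j = v) := by
  by_cases h1 : s.1 = some v
  · left
    rw [place_zero h1] at h
    exact ⟨(Option.some.inj h).symm, h1⟩
  · right
    by_cases h2 : ∃ j, own M v = some j ∧ s.2 j = v
    · obtain ⟨j, h3, h4⟩ := h2
      rw [place_one h1 h3 h4] at h
      exact ⟨(Option.some.inj h).symm, h1, j, h3, h4⟩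
    · push Not at h2
      rw [place_none h1 h2] at h
      exact absurd h (by simp)

theorem place_congr {s s' : St} {w : V} (h : s.1 = some w ↔ s'.1 = some w)
    (h2 : ∀ j, own M w = some j → (s.2 j = w ↔ s'.2 j = w)) : place M s w = place M s' w := by
  unfold place
  simp only [h]
  cases ho : own M w with
  | none => rfl
  | some j => simp only [h2 j ho]

/-- a move of the control token to a free vertex -/
theorem eq_ctl {v v' : V} {ρ : ℕ → V} (hv : ∀ j, own M v = some j → ρ j ≠ v)
    (hne : v ≠ v') :
    place M (some v', ρ) = Function.update (Function.update (place M (some v, ρ)) v none) v'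
      (some 0) := by
  funext w
  simp only [Function.update_apply]
  by_cases hw : w = v'
  · rw [if_pos hw, hw]
    exact place_zero rfl
  · rw [if_neg hw]
    by_cases hw2 : w = v
    · rw [if_pos hw2, hw2]
      exact place_none (fun h => hne (Option.some.inj h).symm) hv
    · rw [if_neg hw2]
      refine place_congr ?_ (fun j _ => Iff.rfl)
      simp only [Option.some.injEq]
      exact ⟨fun h => absurd h.symm hw, fun h => absurd h.symm hw2⟩

/-- a move of a token of type 1 -/
theorem eq_rg {c : Option V} {j : ℕ} {w w' : V} {ρ : ℕ → V} (hρ : ρ j = w)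
    (ho : own M w = some j) (ho' : own M w' = some j) (hne : w ≠ w') (hc : c ≠ some w) :
    place M (if c = some w' then none else c, Function.update ρ j w') =
      Function.update (Function.update (place M (c, ρ)) w none) w' (some 1) := by
  funext u
  simp only [Function.update_apply]
  by_cases hu : u = w'
  · rw [if_pos hu, hu]
    refine place_one ?_ ho' (Function.update_self ..)
    simp only
    split_ifs with h
    · simp
    · exact h
  · rw [if_neg hu]
    by_cases hu2 : u = w
    · rw [if_pos hu2, hu2]
      refine place_none ?_ ?_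
      · simp only
        split_ifs with h
        · simp
        · exact hc
      · intro i hi
        rw [ho] at hi
        obtain rfl := Option.some.inj hi
        simp only [Function.update_self]
        exact hne.symm
    · rw [if_neg hu2]
      refine place_congr ?_ ?_
      · simp only
        split_ifs with h
        · subst h
          simp only [Option.some.injEq, false_iff]
          exact fun h => hu h.symm
        · exact Iff.rfl
      · intro i hi
        simp only [Function.update_apply]
        split_ifs with h
        · subst h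
          rw [hρ]
          exact ⟨fun h => absurd h.symm hu, fun h => absurd h.symm hu2⟩
        · exact Iff.rfl

/-- the game -/
abbrev Gm (M : ARM) : (V → Option ℕ) → (V → Option ℕ) → Prop := HMove (EE M)

/-- the player to move can force a win -/
abbrev N (M : ARM) (s : St) : Prop := Forces (Gm M) true (place M s)

/-- the other player can force a win -/
abbrev P (M : ARM) (s : St) : Prop := Forces (Gm M) false (place M s)

theorem EE_zero {u v : V} : EE M 0 u v ↔ ok M u = true ∧ ok M v = true ∧ cadj M u v = true := by
  simp [EE]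

theorem EE_one {u v : V} : EE M 1 u v ↔ ok M u = true ∧ ok M v = true ∧ radj M u v = true := by
  simp [EE]

theorem mv_ctl {v v' : V} {ρ : ℕ → V} (hk : ok M v = true) (hk' : ok M v' = true)
    (h : cadj M v v' = true) (hv : ∀ j, own M v = some j → ρ j ≠ v) :
    Gm M (place M (some v, ρ)) (place M (some v', ρ)) :=
  ⟨0, v, v', place_zero rfl, EE_zero.2 ⟨hk, hk', h⟩, eq_ctl hv (cadj_ne h)⟩

theorem mv_rg {c : Option V} {j : ℕ} {w' : V} {ρ : ℕ → V} (hρ : Val M ρ) (hj : j ≤ M.1.length)
    (hk' : ok M w' = true) (h : radj M (ρ j) w' = true) (hc : c ≠ some (ρ j)) :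
    Gm M (place M (c, ρ)) (place M (if c = some w' then none else c, Function.update ρ j w')) := by
  obtain ⟨h1, h2⟩ := hρ.1 j hj
  exact ⟨1, ρ j, w', place_one hc h2 rfl, EE_one.2 ⟨h1, hk', h⟩,
    eq_rg rfl h2 (by rw [← radj_own h]; exact h2) (radj_ne h) hc⟩

/-- All moves. -/
theorem moves {c : Option V} {ρ : ℕ → V} (hρ : Val M ρ)
    (hov : ∀ v, c = some v → ∀ j, own M v = some j → ρ j ≠ v)
    {P' : V → Option ℕ} (h : Gm M (place M (c, ρ)) P') :
    (∃ v v', c = some v ∧ ok M v' = true ∧ cadj M v v' = true ∧ P' = place M (some v', ρ)) ∨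
    ∃ j w', j ≤ M.1.length ∧ ok M w' = true ∧ radj M (ρ j) w' = true ∧
      P' = place M (if c = some w' then none else c, Function.update ρ j w') := by
  obtain ⟨i, u, v, h1, h2, h3⟩ := h
  rcases place_cases h1 with ⟨rfl, hc⟩ | ⟨rfl, hc, j, ho, hj⟩
  · left
    simp only at hc
    subst hc
    rw [EE_zero] at h2
    obtain ⟨h4, h5, h6⟩ := h2
    exact ⟨u, v, rfl, h5, h6, by rw [h3, eq_ctl (hov u rfl) (cadj_ne h6)]⟩
  · right
    simp only at hc hj
    rw [EE_one] at h2
    obtain ⟨h4, h5, h6⟩ := h2
    subst hj
    exact ⟨j, v, hρ.own_eq ho rfl, h5, h6, by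
      rw [h3, eq_rg rfl ho (by rw [← radj_own h6]; exact ho) (radj_ne h6) hc]⟩

end Pool.Agent.Q224.HT
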