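import Pool.Agent.H578R2.ANN.Game

/-!
# Hit: the game
-/

namespace Pool.Agent.Q224.HT

open Pool.Agent.NPC.ANN (Forces)

/-- A move of Hit.  A position assigns to every vertex the type of the token on it, or `none`;
`E i u v` says that tokens of type `i` may use the edge `(u, v)`.  A token of type `i` is slid from
`u` to `v`; if `v` holds a token, this token is removed and the moved token stays at `v`. -/
def HMove {V : Type} [DecidableEq V] (E : ℕ → V → V → Prop) (P Q : V → Option ℕ) : Prop :=
  ∃ (i : ℕ) (u v : V), P u = some i ∧ E i u v ∧
    Q = Function.update (Function.update P u none) v (some i)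

/-- Descriptions of Hit positions: the edges of the digraph, for each token type the list of the
edges which tokens of this type may use, and the placement: for each vertex the type of the token
on it, or `none`.  The vertices are the numbers smaller than the length of the placement. -/
abbrev Desc : Type := List (ℕ × ℕ) × List (List (ℕ × ℕ)) × List (Option ℕ)

/-- The description is correct: the edges join distinct vertices, tokens use edges of the digraph,
and the types of the placed tokens exist. -/
def IsPosition (D : Desc) : Prop :=
  (∀ e ∈ D.1, e.1 < D.2.2.length ∧ e.2 < D.2.2.length ∧ e.1 ≠ e.2) ∧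
  (∀ l ∈ D.2.1, ∀ e ∈ l, e ∈ D.1) ∧ ∀ i, some i ∈ D.2.2 → i < D.2.1.length

/-- The number of token types. -/
abbrev types (D : Desc) : ℕ := D.2.1.length

/-- The moves of the game. -/
def Mv (D : Desc) : (ℕ → Option ℕ) → (ℕ → Option ℕ) → Prop :=
  HMove (fun i u v => (u, v) ∈ D.2.1.getD i [])

/-- The position which is described. -/
def start (D : Desc) : ℕ → Option ℕ := fun v => D.2.2.getD v none

/-- The player to move can force a win. -/
def MoverWins (D : Desc) : Prop := Forces (Mv D) true (start D)

/-- The other player can force a win. -/
def OtherWins (D : Desc) : Prop := Forces (Mv D) false (start D)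

/-- Neither player can force a win. -/
def Drawn (D : Desc) : Prop := ¬ MoverWins D ∧ ¬ OtherWins D

end Pool.Agent.Q224.HT
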