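import Pool.Agent.Q224.HT.Main
import Pool.Agent.H578R2.ANN.Enc

/-!
# Hit: instances
-/

namespace Pool.Agent.Q224.HT

open Pool.Agent.NPC.ANN (Forces rl pm us up ok3 ok3_iff rl_mem pm_mem up_lt Lb Bd Bd_regs Bd_rules
  Bd_prems Bd_upd toNat_inj)
open Pool.Agent.H820R2.SS

/-! ### Renaming vertices -/

theorem transport {V : Type} [DecidableEq V] {E : ℕ → V → V → Prop} {E' : ℕ → ℕ → ℕ → Prop}
    {ok : V → Prop} {f : V → ℕ} (hE : ∀ b u v, E b u v → ok u ∧ ok v)
    (hf : ∀ u v, ok u → ok v → f u = f v → u = v)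
    (hE' : ∀ b x y, E' b x y ↔ ∃ u v, E b u v ∧ f u = x ∧ f v = y)
    {P : V → Option ℕ} {Q : ℕ → Option ℕ} (h1 : ∀ v, ok v → Q (f v) = P v) {w : Bool} :
    Forces (HMove E) w P ↔ Forces (HMove E') w Q := by
  have key : ∀ (P : V → Option ℕ) (Q : ℕ → Option ℕ) (i : ℕ) (u v : V), ok u → ok v →
      (∀ v, ok v → Q (f v) = P v) →
      ∀ v', ok v' → (Function.update (Function.update Q (f u) none) (f v) (some i)) (f v') =
          (Function.update (Function.update P u none) v (some i)) v' := by
    intro P Q i u v hu hv h1 v' hv'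
    simp only [Function.update_apply]
    by_cases h4 : v' = v
    · subst h4
      rw [if_pos rfl, if_pos rfl]
    · rw [if_neg h4, if_neg (fun h => h4 (hf _ _ hv' hv h))]
      by_cases h5 : v' = u
      · subst h5
        rw [if_pos rfl, if_pos rfl]
      · rw [if_neg h5, if_neg (fun h => h5 (hf _ _ hv' hu h))]
        exact h1 _ hv'
  refine Forces.bisim_iff (R := fun (P : V → Option ℕ) (Q : ℕ → Option ℕ) =>
    ∀ v, ok v → Q (f v) = P v) ?_ ?_ h1
  · rintro P Q hR P' ⟨i, u, v, hu, he, rfl⟩
    obtain ⟨hou, hov⟩ := hE _ _ _ he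
    exact ⟨_, ⟨i, f u, f v, by rw [hR _ hou, hu], (hE' _ _ _).2 ⟨u, v, he, rfl, rfl⟩, rfl⟩,
      key P Q i u v hou hov hR⟩
  · rintro P Q hR Q' ⟨i, x, y, hx, he, rfl⟩
    obtain ⟨u, v, he', rfl, rfl⟩ := (hE' _ _ _).1 he
    obtain ⟨hou, hov⟩ := hE _ _ _ he'
    exact ⟨_, ⟨i, u, v, by rw [← hR _ hou, hx], he', rfl⟩, key P Q i u v hou hov hR⟩

/-! ### Labels -/

/-- The label of a vertex. -/
def code : V → Lb
  | .G => (0, 0, 0, 0)
  | .I => (1, 0, 0, 0)
  | .A => (2, 0, 0, 0)
  | .B => (3, 0, 0, 0)
  | .D0 => (4, 0, 0, 0)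
  | .D1 => (5, 0, 0, 0)
  | .e k => (6, k, 0, 0)
  | .R r => (7, r, 0, 0)
  | .T r j b => (8, r, j, b.toNat)
  | .Q r j b => (9, r, j, b.toNat)
  | .X r i k => (10, r, i, k)
  | .U r i k => (11, r, i, k)
  | .S r i k => (12, r, i, k)
  | .Z r i k => (13, r, i, k)
  | .p j b => (14, j, b.toNat, 0)
  | .q j => (15, j, 0, 0)
  | .d j m => (16, j, m, 0)
  | .z j => (17, j, 0, 0)

/-- the vertex with a label -/
def deco (z : Lb) : V :=
  match z.1 with
  | 0 => .G
  | 1 => .I
  | 2 => .A
  | 3 => .B
  | 4 => .D0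
  | 5 => .D1
  | 6 => .e z.2.1
  | 7 => .R z.2.1
  | 8 => .T z.2.1 z.2.2.1 (decide (z.2.2.2 = 1))
  | 9 => .Q z.2.1 z.2.2.1 (decide (z.2.2.2 = 1))
  | 10 => .X z.2.1 z.2.2.1 z.2.2.2
  | 11 => .U z.2.1 z.2.2.1 z.2.2.2
  | 12 => .S z.2.1 z.2.2.1 z.2.2.2
  | 13 => .Z z.2.1 z.2.2.1 z.2.2.2
  | 14 => .p z.2.1 (decide (z.2.2.1 = 1))
  | 15 => .q z.2.1
  | 16 => .d z.2.1 z.2.2.1
  | _ => .z z.2.1

theorem deco_code (v : V) : deco (code v) = v := by
  cases v with
  | T r j b => cases b <;> rfl
  | Q r j b => cases b <;> rfl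
  | p j b => cases b <;> rfl
  | _ => rfl

theorem code_inj : Function.Injective code := fun a b h => by
  rw [← deco_code a, ← deco_code b, h]

/-- the labels of the used vertices -/
def okL (M : ARM) (z : Lb) : Bool :=
  let k := z.1
  let a := z.2.1
  let b := z.2.2.1
  let c := z.2.2.2
  (decide (k ≤ 5) && (decide (a = 0) && (decide (b = 0) && decide (c = 0)))) ||
  (decide (k = 6) && (decide (a < KK M) && (decide (b = 0) && decide (c = 0)))) ||
  (decide (k = 7) && (decide (a < M.2.2.length) && (decide (b = 0) && decide (c = 0)))) ||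
  ((decide (k = 8) || decide (k = 9)) && ((decide (a < M.2.2.length) &&
    (decide (b < M.1.length) && decide ((b, decide (c = 1)) ∈ (rl M a).2.1))) &&
      decide (c < 2))) ||
  (decide (k = 10) && ok3 M a b c) ||
  ((decide (k = 11) || (decide (k = 12) || decide (k = 13))) && (decide (0 < c) && ok3 M a b c)) ||
  (decide (k = 14) && (decide (a < M.1.length) && (decide (b < 2) && decide (c = 0)))) ||
  ((decide (k = 15) || decide (k = 17)) && (decide (a < M.1.length) && (decide (b = 0) &&
    decide (c = 0)))) ||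
  (decide (k = 16) && ((decide (a < M.1.length) && decide (b < 2 * a + 2)) && decide (c = 0)))

theorem okL_code (M : ARM) (v : V) : okL M (code v) = ok M v := by
  cases v with
  | T r j b => cases b <;> simp [okL, ok, code] <;> congr
  | Q r j b => cases b <;> simp [okL, ok, code] <;> congr
  | p j b => cases b <;> simp [okL, ok, code] <;> congr
  | _ => simp [okL, ok, code] <;> try congr

theorem okL_surj {M : ARM} {z : Lb} (hk : z.1 < 18) (h : okL M z = true) : code (deco z) = z := by
  obtain ⟨k, a, b, c⟩ := z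
  simp only at hk
  have hb : ∀ n : ℕ, n ≤ 1 → (decide (n = 1)).toNat = n := by
    intro n hn
    interval_cases n <;> rfl
  interval_cases k <;> simp [okL] at h <;> simp [deco, code] <;>
    first
      | (exact h)
      | (exact ⟨h.1.symm, h.2.1.symm, h.2.2.symm⟩)
      | (obtain ⟨h1, h2, h3⟩ := h; exact ⟨h2.symm, h3.symm⟩)
      | (exact hb _ h.2)
      | (obtain ⟨h1, h2, h3⟩ := h; exact ⟨hb _ h2, h3.symm⟩)
      | (exact (h.2).symm)

/-- exits -/
def exL (M : ARM) (z : Lb) (m : ℕ) : Bool :=
  let k := z.1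
  let a := z.2.1
  let b := z.2.2.1
  let c := z.2.2.2
  (decide (k = 6) && decide (m < a)) ||
  ((decide (k = 11) || decide (k = 12)) && (!decide (m = 1) &&
    !decide (m = 2 * (up M a b c).1 + 3))) ||
  ((decide (k < 4) || (decide (k = 7) || (decide (k = 8) || (decide (k = 9) ||
    (decide (k = 10) || decide (k = 13)))))) && !decide (m = 1))

/-- adjacency for control tokens -/
def cL (M : ARM) (z z' : Lb) : Bool :=
  let k := z.1
  let a := z.2.1
  let b := z.2.2.1
  let c := z.2.2.2
  let k' := z'.1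
  let a' := z'.2.1
  let b' := z'.2.2.1
  let c' := z'.2.2.2
  (decide (k' = 6) && exL M z a') ||
  (decide (k = 0) && (decide (k' = 2) || (decide (k' = 7) && decide ((rl M a').1 = M.2.1)))) ||
  (decide (k = 1) && decide (k' = 0)) ||
  (decide (k = 2) && decide (k' = 3)) ||
  (decide (k = 3) && decide (k' = 2)) ||
  (decide (k = 7) && ((decide (k' = 8) && decide (a = a')) ||
    (decide (k' = 10) && (decide (a = a') && decide (c' = (us M a' b').length))))) ||
  ((decide (k = 8) && decide (k' = 9)) && (decide (a = a') && (decide (b = b') &&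
    decide (c = c')))) ||
  (((decide (k = 10) && decide (k' = 11)) || ((decide (k = 11) && decide (k' = 12)) ||
    (decide (k = 12) && decide (k' = 13)))) && (decide (a = a') && (decide (b = b') &&
    decide (c = c')))) ||
  ((decide (k = 10) && decide (k' = 7)) && (decide (c = 0) &&
    decide ((rl M a').1 = (pm M a b).1))) ||
  ((decide (k = 13) && decide (k' = 10)) && (decide (a = a') && (decide (b = b') &&
    decide (c = c' + 1))))

/-- adjacency for the other tokens -/
def rL (M : ARM) (z z' : Lb) : Bool :=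
  let k := z.1
  let a := z.2.1
  let b := z.2.2.1
  let c := z.2.2.2
  let k' := z'.1
  let a' := z'.2.1
  let b' := z'.2.2.1
  let c' := z'.2.2.2
  ((decide (k = 14) && decide (k' = 15)) && decide (a = a')) ||
  ((decide (k = 14) && decide (k' = 9)) && (decide (a = b') &&
    decide (decide (c' = 1) = !decide (b = 1)))) ||
  ((decide (k = 14) && decide (k' = 12)) && (decide (a = (up M a' b' c').1) &&
    decide (decide (b = 1) = !(up M a' b' c').2))) ||
  ((decide (k = 15) && (decide (k' = 14) || decide (k' = 16))) && decide (a = a')) ||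
  ((decide (k = 16) && decide (k' = 16)) && (decide (a = a') && decide (b' < b))) ||
  ((decide (k = 16) && (decide (k' = 11) || decide (k' = 12))) && (decide (b = 0) &&
    decide (a = (up M a' b' c').1))) ||
  ((decide (k = 9) && decide (k' = 17)) && decide (b = a')) ||
  (((decide (k = 11) || decide (k = 12)) && decide (k' = 17)) &&
    decide (a' = (up M a b c).1)) ||
  (decide (k = 5) && decide (k' = 4))

theorem exL_code (M : ARM) (u : V) (m : ℕ) : exL M (code u) m = exi M u m := by
  cases u <;> simp [exL, exi, code] <;> try congr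

theorem cL_code (M : ARM) (u v : V) : cL M (code u) (code v) = cadj M u v := by
  cases v with
  | e m =>
    have h1 : cadj M u (.e m) = exi M u m := by cases u <;> rfl
    rw [h1, ← exL_code]
    cases u <;> simp [cL, code]
  | Q r j b =>
    cases u with
    | T r' j' b' =>
      cases b <;> cases b' <;> simp [cL, cadj, code] <;> try congr
    | _ => simp [cL, cadj, code]
  | _ =>
    cases u <;> simp [cL, cadj, code] <;> try congr

theorem rL_code (M : ARM) (u v : V) : rL M (code u) (code v) = radj M u v := by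
  cases u <;> cases v <;> simp [rL, radj, code] <;> try congr

end Pool.Agent.Q224.HT
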