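import Pool.Agent.Q224.HT.Enc

/-!
# Hit: instances
-/

namespace Pool.Agent.Q224.HT

open Pool.Agent.NPC.ANN (Forces rl pm us up ok3 ok3_iff rl_mem pm_mem up_lt Lb Bd Bd_regs Bd_rules
  Bd_prems Bd_upd toNat_inj)
open Pool.Agent.H820R2.SS

/-- all numbers in labels are smaller -/
def BB (M : ARM) : ℕ := 4 * Bd M

/-- all labels -/
def vs (M : ARM) : List Lb :=
  ((List.range 18) ×ˢ ((List.range (BB M)) ×ˢ ((List.range (BB M)) ×ˢ (List.range (BB M))))).filter
    (okL M)

theorem vs_nodup (M : ARM) : (vs M).Nodup := by
  unfold vs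
  apply List.Nodup.filter
  exact List.nodup_range.product (List.nodup_range.product
    (List.nodup_range.product List.nodup_range))

theorem mem_vs {M : ARM} {z : Lb} : z ∈ vs M ↔ ∃ v, ok M v = true ∧ code v = z := by
  unfold vs
  rw [List.mem_filter]
  constructor
  · rintro ⟨h1, h2⟩
    have h3 : z.1 < 18 := by
      obtain ⟨k, a, b, c⟩ := z
      simp only [List.mem_product, List.mem_range] at h1
      exact h1.1
    have h4 := okL_surj h3 h2
    refine ⟨deco z, ?_, h4⟩
    rw [← okL_code, h4]
    exact h2
  · rintro ⟨v, hv, rfl⟩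
    refine ⟨?_, by rw [okL_code]; exact hv⟩
    have hB := Bd_regs M
    have hB2 := Bd_rules M
    have hBB : BB M = 4 * Bd M := rfl
    have hKK : KK M = 4 * M.1.length + 4 := rfl
    have hb : ∀ b : Bool, b.toNat ≤ 1 := by intro b; cases b <;> simp
    cases v with
    | e k =>
      simp only [code, List.mem_product, List.mem_range]
      simp only [ok, decide_eq_true_eq] at hv
      omega
    | R r =>
      simp only [code, List.mem_product, List.mem_range]
      simp only [ok, decide_eq_true_eq] at hv
      omega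
    | T r j b =>
      simp only [code, List.mem_product, List.mem_range]
      simp only [ok, Bool.and_eq_true, decide_eq_true_eq] at hv
      have := hb b
      omega
    | Q r j b =>
      simp only [code, List.mem_product, List.mem_range]
      simp only [ok, Bool.and_eq_true, decide_eq_true_eq] at hv
      have := hb b
      omega
    | X r i k =>
      simp only [code, List.mem_product, List.mem_range]
      simp only [ok] at hv
      obtain ⟨h1, h2, h3⟩ := ok3_iff.1 hv
      have := Bd_prems h1 h2
      have := Bd_upd hv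
      omega
    | U r i k =>
      simp only [code, List.mem_product, List.mem_range]
      simp only [ok, Bool.and_eq_true] at hv
      obtain ⟨h1, h2, h3⟩ := ok3_iff.1 hv.2
      have := Bd_prems h1 h2
      have := Bd_upd hv.2
      omega
    | S r i k =>
      simp only [code, List.mem_product, List.mem_range]
      simp only [ok, Bool.and_eq_true] at hv
      obtain ⟨h1, h2, h3⟩ := ok3_iff.1 hv.2
      have := Bd_prems h1 h2
      have := Bd_upd hv.2
      omega
    | Z r i k =>
      simp only [code, List.mem_product, List.mem_range]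
      simp only [ok, Bool.and_eq_true] at hv
      obtain ⟨h1, h2, h3⟩ := ok3_iff.1 hv.2
      have := Bd_prems h1 h2
      have := Bd_upd hv.2
      omega
    | p j b =>
      simp only [code, List.mem_product, List.mem_range]
      simp only [ok, decide_eq_true_eq] at hv
      have := hb b
      omega
    | q j =>
      simp only [code, List.mem_product, List.mem_range]
      simp only [ok, decide_eq_true_eq] at hv
      omega
    | d j m =>
      simp only [code, List.mem_product, List.mem_range]
      simp only [ok, Bool.and_eq_true, decide_eq_true_eq] at hv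
      omega
    | z j =>
      simp only [code, List.mem_product, List.mem_range]
      simp only [ok, decide_eq_true_eq] at hv
      omega
    | _ =>
      simp only [code, List.mem_product, List.mem_range]
      omega

/-- the number of a vertex -/
def nu (M : ARM) (v : V) : ℕ := (vs M).idxOf (code v)

theorem nu_lt {M : ARM} {v : V} (h : ok M v = true) : nu M v < (vs M).length :=
  List.idxOf_lt_length_iff.2 (mem_vs.2 ⟨v, h, rfl⟩)

theorem nu_get {M : ARM} {v : V} (h : ok M v = true) (d : Lb) :
    (vs M).getD (nu M v) d = code v := by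
  rw [List.getD_eq_getElem _ _ (nu_lt h)]
  exact List.getElem_idxOf (nu_lt h)

theorem nu_inj {M : ARM} {u v : V} (hu : ok M u = true) (hv : ok M v = true)
    (h : nu M u = nu M v) : u = v := by
  apply code_inj
  rw [← nu_get hu (0, 0, 0, 0), ← nu_get hv (0, 0, 0, 0), h]

theorem nu_surj {M : ARM} {x : ℕ} (h : x < (vs M).length) : ∃ v, ok M v = true ∧ nu M v = x := by
  obtain ⟨v, hv, hc⟩ := mem_vs.1 (List.getElem_mem h)
  refine ⟨v, hv, ?_⟩
  unfold nu
  rw [hc]
  exact (vs_nodup M).idxOf_getElem x h

/-- the pairs of vertices satisfying a test on labels -/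
def edg (l : List Lb) (t : Lb → Lb → Bool) : List (ℕ × ℕ) :=
  ((List.range l.length) ×ˢ (List.range l.length)).filter
    (fun p => t (l.getD p.1 (0, 0, 0, 0)) (l.getD p.2 (0, 0, 0, 0)))

/-- the token on a vertex at the start -/
def tok (c : ℕ) (z : Lb) : Option ℕ :=
  bif decide (z = (c, 0, 0, 0)) then some 0
    else bif decide (z.1 = 5) || (decide (z.1 = 14) && decide (z.2.2.1 = 0)) then some 1 else none

/-- The instance; the control token starts at the vertex with label `(c, 0, 0, 0)`. -/
def inst (c : ℕ) (M : ARM) : Desc :=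
  (edg (vs M) (cL M) ++ edg (vs M) (rL M), [edg (vs M) (cL M), edg (vs M) (rL M)],
    (vs M).map (tok c))

theorem mem_edg {M : ARM} {t : Lb → Lb → Bool} {x y : ℕ} : (x, y) ∈ edg (vs M) t ↔
    ∃ u v, ok M u = true ∧ ok M v = true ∧ t (code u) (code v) = true ∧ nu M u = x ∧
      nu M v = y := by
  unfold edg
  rw [List.mem_filter, List.mem_product, List.mem_range, List.mem_range]
  constructor
  · rintro ⟨⟨h1, h2⟩, h3⟩
    obtain ⟨u, hu, rfl⟩ := nu_surj h1
    obtain ⟨v, hv, rfl⟩ := nu_surj h2
    refine ⟨u, v, hu, hv, ?_, rfl, rfl⟩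
    simpa only [nu_get hu, nu_get hv] using h3
  · rintro ⟨u, v, hu, hv, h, rfl, rfl⟩
    refine ⟨⟨nu_lt hu, nu_lt hv⟩, ?_⟩
    simpa only [nu_get hu, nu_get hv] using h

theorem inst_edges (c : ℕ) (M : ARM) (i x y : ℕ) : (x, y) ∈ (inst c M).2.1.getD i [] ↔
    ∃ u v, EE M i u v ∧ nu M u = x ∧ nu M v = y := by
  rcases i with _ | _ | i
  · simp only [inst, List.getD_cons_zero]
    rw [mem_edg]
    constructor
    · rintro ⟨u, v, hu, hv, h, h1, h2⟩
      exact ⟨u, v, EE_zero.2 ⟨hu, hv, by rw [cL_code] at h; exact h⟩, h1, h2⟩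
    · rintro ⟨u, v, he, h1, h2⟩
      obtain ⟨hu, hv, h⟩ := EE_zero.1 he
      exact ⟨u, v, hu, hv, by rw [cL_code]; exact h, h1, h2⟩
  · simp only [inst, List.getD_cons_succ, List.getD_cons_zero]
    rw [mem_edg]
    constructor
    · rintro ⟨u, v, hu, hv, h, h1, h2⟩
      exact ⟨u, v, EE_one.2 ⟨hu, hv, by rw [rL_code] at h; exact h⟩, h1, h2⟩
    · rintro ⟨u, v, he, h1, h2⟩
      obtain ⟨hu, hv, h⟩ := EE_one.1 he
      exact ⟨u, v, hu, hv, by rw [rL_code]; exact h, h1, h2⟩
  · simp only [inst, List.getD_cons_succ, List.getD_nil, List.not_mem_nil, false_iff]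
    rintro ⟨u, v, ⟨hu, hv, h⟩, h1, h2⟩
    simp at h

theorem tok_code {M : ARM} {c : ℕ} {v0 : V} (hc : code v0 = (c, 0, 0, 0)) (hc4 : c < 2) {v : V}
    (hv : ok M v = true) : tok c (code v) = place M (some v0, rst M fun _ => false) v := by
  have hv0 : (c = 0 ∧ v0 = .G) ∨ (c = 1 ∧ v0 = .I) := by
    have : c = 0 ∨ c = 1 := by omega
    rcases this with rfl | rfl
    · exact Or.inl ⟨rfl, code_inj hc⟩
    · exact Or.inr ⟨rfl, code_inj hc⟩
  have hC : isC v0 = true := by rcases hv0 with ⟨-, rfl⟩ | ⟨-, rfl⟩ <;> rfl
  by_cases h2 : v = v0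
  · subst h2
    rw [place_zero rfl, hc]
    simp [tok]
  · have h3 : code v ≠ (c, 0, 0, 0) := by
      rw [← hc]
      exact fun h => h2 (code_inj h)
    unfold tok
    rw [decide_eq_false h3, cond_false]
    by_cases h4 : ∃ j, own M v = some j ∧ rst M (fun _ => false) j = v
    · obtain ⟨j, h5, h6⟩ := h4
      rw [place_one (fun h => h2 (Option.some.inj h).symm) h5 h6]
      by_cases hj : j < M.1.length
      · rw [rst_lt hj] at h6
        subst h6
        simp [code]
      · rw [rst_ge hj] at h6
        subst h6
        simp [code]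
    · push Not at h4
      rw [place_none (fun h => h2 (Option.some.inj h).symm) h4]
      cases v with
      | D1 => exact absurd (rst_ge (by omega)) (h4 _ rfl)
      | p j b =>
        have hj : j < M.1.length := by simpa [ok] using hv
        cases b with
        | false => exact absurd (rst_lt hj) (h4 _ rfl)
        | true => simp [code]
      | _ => simp [code]

theorem inst_start {c : ℕ} {M : ARM} {v0 : V} (hc : code v0 = (c, 0, 0, 0))
    (hc4 : c < 2) (v : V) (hv : ok M v = true) :
    start (inst c M) (nu M v) = place M (some v0, rst M fun _ => false) v := by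
  rw [← tok_code hc hc4 hv]
  unfold start inst
  simp only
  rw [List.getD_eq_getElem _ _ (by rw [List.length_map]; exact nu_lt hv), List.getElem_map]
  have h2 := nu_get hv (0, 0, 0, 0)
  rw [List.getD_eq_getElem _ _ (nu_lt hv)] at h2
  rw [h2]

theorem inst_forces {c : ℕ} {M : ARM} {v0 : V} (hc : code v0 = (c, 0, 0, 0))
    (hc4 : c < 2) (w : Bool) : Forces (Mv (inst c M)) w (start (inst c M)) ↔
    Forces (Gm M) w (place M (some v0, rst M fun _ => false)) := by
  symm
  exact transport (ok := fun v => ok M v = true) (f := nu M) (fun i u v h => ⟨h.1, h.2.1⟩)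
    (fun u v => nu_inj) (inst_edges c M) (inst_start hc hc4)

theorem inst_isPosition (c : ℕ) (M : ARM) : IsPosition (inst c M) := by
  have hlen : (inst c M).2.2.length = (vs M).length := by
    simp [inst]
  refine ⟨?_, ?_, ?_⟩
  · rw [hlen]
    rintro ⟨x, y⟩ he
    simp only [inst, List.mem_append] at he
    rcases he with he | he
    · obtain ⟨u, v, hu, hv, h, rfl, rfl⟩ := mem_edg.1 he
      refine ⟨nu_lt hu, nu_lt hv, fun h2 => ?_⟩
      have h3 := nu_inj hu hv h2
      rw [cL_code] at h
      exact cadj_ne h h3
    · obtain ⟨u, v, hu, hv, h, rfl, rfl⟩ := mem_edg.1 he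
      refine ⟨nu_lt hu, nu_lt hv, fun h2 => ?_⟩
      have h3 := nu_inj hu hv h2
      rw [rL_code] at h
      exact radj_ne h h3
  · intro l hl e he
    simp only [inst, List.mem_cons, List.not_mem_nil, or_false] at hl
    rcases hl with rfl | rfl
    · exact List.mem_append_left _ he
    · exact List.mem_append_right _ he
  · intro i hi
    simp only [inst, List.mem_map] at hi
    obtain ⟨z, -, hz⟩ := hi
    show i < 2
    unfold tok at hz
    revert hz
    cases decide (z = (c, 0, 0, 0)) <;>
      cases (decide (z.1 = 5) || (decide (z.1 = 14) && decide (z.2.2.1 = 0))) <;>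
      simp <;> omega

end Pool.Agent.Q224.HT
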