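import Pool.Agent.Q224.HT.Sim

/-!
# Hit: the player to move wins if and only if the machine accepts
-/

namespace Pool.Agent.Q224.HT

open Pool.Agent.NPC.ANN (Forces rl pm us up ok3 ok3_iff rl_mem pm_mem up_lt upd_take upd_nil
  upd_take_update)
open Pool.Agent.H820R2.SS

variable {M : ARM}

/-! ### Acceptance -/

section

variable {r i k : ℕ}

theorem okX (h : ok3 M r i k = true) : ok M (.X r i k) = true := by
  simpa [ok] using h

theorem okU (h : ok3 M r i k = true) (h0 : 0 < k) : ok M (.U r i k) = true := by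
  simp [ok, h, h0]

theorem okS (h : ok3 M r i k = true) (h0 : 0 < k) : ok M (.S r i k) = true := by
  simp [ok, h, h0]

theorem okZ (h : ok3 M r i k = true) (h0 : 0 < k) : ok M (.Z r i k) = true := by
  simp [ok, h, h0]

theorem okR (h : r < M.2.2.length) : ok M (.R r) = true := by
  simpa [ok] using h

theorem ok3_pred (h : ok3 M r i (k + 1) = true) : ok3 M r i k = true := by
  rw [ok3_iff] at h ⊢
  omega

/-- legal moves of the control token -/
theorem go_rst {v v' : V} {σ : ℕ → Bool} (hv : isC v = true) (hk : ok M v = true)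
    (hk' : ok M v' = true) (h : cadj M v v' = true) :
    Gm M (place M (some v, rst M σ)) (place M (some v', rst M σ)) :=
  mv_ctl hk hk' h (reg_ne hv (rst_reg σ))

theorem go_lf {v v' : V} {σ : ℕ → Bool} {j : ℕ} (hv : isC v = true) (hk : ok M v = true)
    (hk' : ok M v' = true) (h : cadj M v v' = true) :
    Gm M (place M (some v, lf M σ j)) (place M (some v', lf M σ j)) :=
  mv_ctl hk hk' h (reg_ne hv (lf_reg σ j))

theorem cU {v' : V} (hc : isC v' = true) (h : cadj M (.U r i k) v' = true) : v' = .S r i k := by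
  cases v' <;> simp_all [cadj, isC]

theorem cS {v' : V} (hc : isC v' = true) (h : cadj M (.S r i k) v' = true) : v' = .Z r i k := by
  cases v' <;> simp_all [cadj, isC]

theorem cZ {v' : V} (hc : isC v' = true) (h : cadj M (.Z r i k) v' = true) :
    ∃ k', k = k' + 1 ∧ v' = .X r i k' := by
  cases v' <;> simp_all [cadj, isC]

theorem cT {j : ℕ} {b : Bool} {v' : V} (hc : isC v' = true)
    (h : cadj M (.T r j b) v' = true) : v' = .Q r j b := by
  cases v' <;> simp_all [cadj, isC]

theorem cQ {j : ℕ} {b : Bool} {v' : V} (hc : isC v' = true) :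
    ¬ cadj M (.Q r j b) v' = true := by
  cases v' <;> simp_all [cadj, isC]

/-- the register holds the wrong value -/
theorem wrongS (hM : ARMPr M) {σ : ℕ → Bool} (h : ok3 M r i k = true) (h0 : 0 < k)
    (hne : σ (up M r i k).1 ≠ (up M r i k).2) : N M (some (.S r i k), rst M σ) := by
  have hj := up_lt hM h h0
  refine cap_win hM (rst_val σ) hj.le (okS h h0) ?_ ?_
  · rw [rst_lt hj]
    have : σ (up M r i k).1 = !(up M r i k).2 := by
      revert hne
      cases σ (up M r i k).1 <;> cases (up M r i k).2 <;> simp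
    simp [radj, this]
  · rw [tr_rst, rst_lt hj]
    simp [gr]

/-- the control token leaves a lifted register behind -/
theorem lfZ (hM : ARMPr M) {σ : ℕ → Bool} (h : ok3 M r i k = true) (h0 : 0 < k) :
    N M (some (.Z r i k), lf M σ (up M r i k).1) := by
  have hj := up_lt hM h h0
  refine exit_win hM (lf_val hj) (okZ h h0) (reg_ne rfl (lf_reg σ _)) ?_ ?_
  · rw [tr_lf hj]
    have : KK M = 4 * M.1.length + 4 := rfl
    omega
  · rw [tr_lf hj]
    simp [exi]

end

/-- the value is checked at `S` -/
theorem restS (hM : ARMPr M) {r i k : ℕ} {σ : ℕ → Bool} (h : ok3 M r i k = true) (h0 : 0 < k)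
    (hZ : σ (up M r i k).1 = (up M r i k).2 → P M (some (.Z r i k), rst M σ)) :
    N M (some (.S r i k), rst M σ) := by
  by_cases hb : σ (up M r i k).1 = (up M r i k).2
  · exact .win (go_rst rfl (okS h h0) (okZ h h0) (by simp [cadj])) (hZ hb)
  · exact wrongS hM h h0 hb

/-- A chain of updates. -/
theorem chain (hM : ARMPr M) {r i : ℕ} : ∀ (k : ℕ) (σ : ℕ → Bool), ok3 M r i k = true →
    N M (some (.X r i 0), rst M (upd σ ((us M r i).take k))) →
    N M (some (.X r i k), rst M σ) := by
  intro k
  induction k with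
  | zero =>
    intro σ hk h
    rwa [List.take_zero, upd_nil] at h
  | succ k ih =>
    intro σ hk h
    have h0 := Nat.succ_pos k
    rw [upd_take hk h0, Nat.add_sub_cancel] at h
    -- after the update
    have hZ : ∀ σ', Function.update σ (up M r i (k + 1)).1 (up M r i (k + 1)).2 = σ' →
        P M (some (.Z r i (k + 1)), rst M σ') := by
      rintro _ rfl
      refine .lose fun P' hP' => ?_
      rcases rest_moves hM (v := .Z r i (k + 1)) rfl (okZ hk h0) (by simp) (by simp) hP' with
        h1 | ⟨v', h1, h2, h3, rfl⟩ | ⟨r', i', k', h1 | h1, rfl⟩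
      · exact h1
      · obtain ⟨k', h4, rfl⟩ := cZ h1 h3
        obtain rfl : k = k' := by omega
        exact ih _ (ok3_pred hk) h
      · simp at h1
      · simp at h1
    have hS : P M (some (.S r i (k + 1)), lf M σ (up M r i (k + 1)).1) := by
      refine .lose fun P' hP' => ?_
      rcases lift_moves hM (Or.inr rfl) (okS hk h0) hP' with
        h1 | ⟨v', h1, h2, h3, rfl⟩ | ⟨b, rfl⟩
      · exact h1
      · rw [cS h1 h3]
        exact lfZ hM hk h0
      · refine restS hM hk h0 fun hb => hZ _ ?_
        simp only [Function.update_self] at hb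
        rw [hb]
    refine .win (go_rst (v := .X r i (k + 1)) (v' := .U r i (k + 1)) rfl (okX hk) (okU hk h0)
      (by simp [cadj])) (.lose fun P' hP' => ?_)
    rcases rest_moves hM (v := .U r i (k + 1)) rfl (okU hk h0) (by simp) (by simp) hP' with
      h1 | ⟨v', h1, h2, h3, rfl⟩ | ⟨r', i', k', h1 | h1, rfl⟩
    · exact h1
    · rw [cU h1 h3]
      refine restS hM hk h0 fun hb => hZ _ ?_
      rw [← hb, Function.update_eq_self]
    · obtain ⟨rfl, rfl, rfl⟩ := V.U.inj h1
      exact .win (go_lf rfl (okU hk h0) (okS hk h0) (by simp [cadj])) hS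
    · simp at h1

/-- If the machine accepts, then the player to move wins. -/
theorem acc (hM : ARMPr M) {c : ℕ} {σ : ℕ → Bool} (h : Der M.2.2 c σ) : ∀ (v : V),
    ((v = .G ∧ c = M.2.1) ∨ ∃ r i, v = .X r i 0 ∧ ok3 M r i 0 = true ∧ c = (pm M r i).1) →
    N M (some v, rst M σ) := by
  induction h with
  | mk rule σ hr hg hp ih =>
    intro v hv
    obtain ⟨r, hr1, hr2⟩ := List.getElem_of_mem hr
    have hrl : rl M r = rule := by
      unfold rl
      rw [List.getD_eq_getElem _ _ hr1, hr2]
    have hlose : P M (some (.R r), rst M σ) := by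
      refine .lose fun P' hP' => ?_
      rcases rest_moves hM (v := .R r) rfl (okR hr1) (by simp) (by simp) hP' with
        h1 | ⟨v', h1, h2, h3, rfl⟩ | ⟨r', i', k', h1 | h1, rfl⟩
      · exact h1
      · cases v' with
        | T r' j b =>
          simp only [cadj, decide_eq_true_eq] at h3
          subst h3
          have hgj : σ j = b := by
            simp only [ok, Bool.and_eq_true, decide_eq_true_eq] at h2
            rw [hrl] at h2
            exact hg _ h2.2.2
          have hokQ : ok M (.Q r j b) = true := h2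
          refine .win (go_rst (v := .T r j b) (v' := .Q r j b) rfl h2 hokQ (by simp [cadj]))
            (.lose fun P' hP' => ?_)
          have hQ : ∀ r' j' b', V.Q r j b = .Q r' j' b' → σ j' = b' := by
            intro r' j' b' h
            obtain ⟨rfl, rfl, rfl⟩ := V.Q.inj h
            exact hgj
          rcases rest_moves hM (v := .Q r j b) rfl hokQ hQ (by simp) hP' with
            h1 | ⟨v', h1, h2, h3, rfl⟩ | ⟨r', i', k', h1 | h1, rfl⟩
          · exact h1
          · exact absurd h3 (cQ h1)
          · simp at h1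
          · simp at h1
        | X r' i k =>
          simp only [cadj, Bool.and_eq_true, decide_eq_true_eq] at h3
          obtain ⟨rfl, rfl⟩ := h3
          have hk : ok3 M r i (us M r i).length = true := by simpa [ok] using h2
          have hk' := ok3_iff.1 hk
          have h7 : pm M r i ∈ rule.2.2 := by
            rw [← hrl]
            exact pm_mem hk'.2.1
          refine chain hM _ _ hk ?_
          rw [List.take_length]
          exact ih _ h7 _ (Or.inr ⟨r, i, rfl, by rw [ok3_iff]; omega, rfl⟩)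
        | _ => simp [cadj, isC] at h3 h1
      · simp at h1
      · simp at h1
    rcases hv with ⟨rfl, hc⟩ | ⟨r', i', rfl, hk, hc⟩
    · exact .win (go_rst (v := .G) (v' := .R r) rfl rfl (okR hr1) (by simp [cadj, hrl, hc])) hlose
    · exact .win (go_rst (v := .X r' i' 0) (v' := .R r) rfl (okX hk) (okR hr1)
        (by simp [cadj, hrl, hc])) hlose

/-! ### Rejection -/

/-- positions at which the player to move cannot win -/
inductive NA (M : ARM) : (V → Option ℕ) → Prop
  | G {σ : ℕ → Bool} (h : ¬ Der M.2.2 M.2.1 σ) : NA M (place M (some .G, rst M σ))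
  | X {r i k : ℕ} {σ : ℕ → Bool} (hk : ok3 M r i k = true)
      (h : ¬ Der M.2.2 (pm M r i).1 (upd σ ((us M r i).take k))) :
      NA M (place M (some (.X r i k), rst M σ))
  | T {r j : ℕ} {b : Bool} {σ : ℕ → Bool} (hk : ok M (.T r j b) = true) (h : σ j ≠ b) :
      NA M (place M (some (.T r j b), rst M σ))
  | U {r i k : ℕ} {σ : ℕ → Bool} (hk : ok3 M r i k = true) (h0 : 0 < k)
      (h : ¬ Der M.2.2 (pm M r i).1 (upd σ ((us M r i).take k))) :
      NA M (place M (some (.U r i k), lf M σ (up M r i k).1))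
  | S {r i k : ℕ} {σ : ℕ → Bool} (hk : ok3 M r i k = true) (h0 : 0 < k)
      (hb : σ (up M r i k).1 = (up M r i k).2)
      (h : ¬ Der M.2.2 (pm M r i).1 (upd σ ((us M r i).take k))) :
      NA M (place M (some (.S r i k), rst M σ))
  | B {σ : ℕ → Bool} : NA M (place M (some .B, rst M σ))

/-- positions at which the player to move does not lose -/
def NB (M : ARM) (p : V → Option ℕ) : Prop := ∃ q, Gm M p q ∧ NA M q

/-- a violated guard -/
theorem winQ (hM : ARMPr M) {r j : ℕ} {b : Bool} {σ : ℕ → Bool} (hk : ok M (.Q r j b) = true)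
    (h : σ j ≠ b) : N M (some (.Q r j b), rst M σ) := by
  have hj : j < M.1.length := by
    simp only [ok, Bool.and_eq_true, decide_eq_true_eq] at hk
    exact hk.2.1
  refine cap_win hM (rst_val σ) hj.le hk ?_ ?_
  · rw [rst_lt hj]
    have : b = !σ j := by
      revert h
      cases σ j <;> cases b <;> simp
    simp [radj, this]
  · rw [tr_rst, rst_lt hj]
    simp [gr]

/-- entering a rule -/
theorem enter_R (hM : ARMPr M) {c : ℕ} {σ : ℕ → Bool} (hc : ¬ Der M.2.2 c σ) {r : ℕ}
    (hr : r < M.2.2.length) (hh : (rl M r).1 = c) : NB M (place M (some (.R r), rst M σ)) := by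
  by_cases hg : ∀ g ∈ (rl M r).2.1, σ g.1 = g.2
  · by_cases hp : ∀ s ∈ (rl M r).2.2, Der M.2.2 s.1 (upd σ s.2)
    · rw [← hh] at hc
      exact absurd (.mk (rl M r) σ (rl_mem hr) hg hp) hc
    · push Not at hp
      obtain ⟨s, hs, hs'⟩ := hp
      obtain ⟨i, hi, hi'⟩ := List.getElem_of_mem hs
      have hpm : pm M r i = s := by
        unfold pm
        rw [List.getD_eq_getElem _ _ hi, hi']
      have hk : ok3 M r i (us M r i).length = true := by
        rw [ok3_iff]
        exact ⟨hr, hi, le_rfl⟩
      refine ⟨_, go_rst (v := .R r) (v' := .X r i (us M r i).length) rfl (okR hr) (okX hk)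
        (by simp [cadj]), .X hk ?_⟩
      rw [List.take_length]
      unfold us
      rw [hpm]
      exact hs'
  · push Not at hg
    obtain ⟨g, hg1, hg2⟩ := hg
    have hj := (hM _ (rl_mem hr)).1 g hg1
    have hk : ok M (.T r g.1 g.2) = true := by
      simp [ok, hr, hj, hg1]
    exact ⟨_, go_rst (v := .R r) (v' := .T r g.1 g.2) rfl (okR hr) hk (by simp [cadj]),
      .T hk hg2⟩

theorem nbS (hM : ARMPr M) {r i k : ℕ} {σ : ℕ → Bool} (hk : ok3 M r i k = true) (h0 : 0 < k)
    (h : ¬ Der M.2.2 (pm M r i).1 (upd σ ((us M r i).take k))) :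
    NB M (place M (some (.S r i k), lf M σ (up M r i k).1)) := by
  have hj := up_lt hM hk h0
  have h1 := mv_rg (c := some (.S r i k)) (lf_val (σ := σ) hj) hj.le
    (w' := .p (up M r i k).1 (up M r i k).2) (by simpa [ok] using hj)
    (by rw [lf_self]; simp [radj]) (by rw [lf_self]; simp)
  rw [if_neg (by simp), lf_set hj] at h1
  refine ⟨_, h1, .S hk h0 (by simp) ?_⟩
  rw [upd_take_update hk h0]
  exact h

theorem nbU (hM : ARMPr M) {r i k : ℕ} {σ : ℕ → Bool} (hk : ok3 M r i k = true) (h0 : 0 < k)
    (h : ¬ Der M.2.2 (pm M r i).1 (upd σ ((us M r i).take k))) :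
    NB M (place M (some (.U r i k), rst M σ)) := by
  have hj := up_lt hM hk h0
  have h1 := mv_rg (c := some (.U r i k)) (rst_val σ) hj.le
    (w' := .q (up M r i k).1) (by simpa [ok] using hj)
    (by rw [rst_lt hj]; simp [radj]) (by rw [rst_lt hj]; simp)
  rw [if_neg (by simp)] at h1
  exact ⟨_, h1, .U hk h0 h⟩

theorem closeA (hM : ARMPr M) : ∀ s, NA M s → ∀ s', Gm M s s' →
    Forces (Gm M) true s' ∨ NB M s' := by
  intro s hs s' hs'
  cases hs with
  | @G σ h =>
    rcases rest_moves hM (v := .G) rfl rfl (by simp) (by simp) hs' with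
      h1 | ⟨v', h1, h2, h3, rfl⟩ | ⟨r', i', k', h1 | h1, rfl⟩
    · exact Or.inl h1
    · right
      cases v' with
      | A => exact ⟨_, go_rst (v := .A) (v' := .B) rfl rfl rfl rfl, .B⟩
      | R r => exact enter_R hM h (by simpa [ok] using h2) (by simpa [cadj] using h3)
      | _ => simp [cadj, isC] at h1 h3
    · simp at h1
    · simp at h1
  | @X r i k σ hk h =>
    rcases rest_moves hM (v := .X r i k) rfl (okX hk) (by simp) (by simp) hs' with
      h1 | ⟨v', h1, h2, h3, rfl⟩ | ⟨r', i', k', h1 | h1, rfl⟩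
    · exact Or.inl h1
    · right
      cases v' with
      | U r' i' k' =>
        simp only [cadj, Bool.and_eq_true, decide_eq_true_eq] at h3
        obtain ⟨rfl, rfl, rfl⟩ := h3
        simp only [ok, Bool.and_eq_true, decide_eq_true_eq] at h2
        exact nbU hM hk h2.1 h
      | R r' =>
        simp only [cadj, Bool.and_eq_true, decide_eq_true_eq] at h3
        obtain ⟨rfl, h4⟩ := h3
        rw [List.take_zero, upd_nil] at h
        exact enter_R hM h (by simpa [ok] using h2) h4
      | _ => simp [cadj, isC] at h1 h3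
    · simp at h1
    · simp at h1
  | @T r j b σ hk h =>
    rcases rest_moves hM (v := .T r j b) rfl hk (by simp) (by simp) hs' with
      h1 | ⟨v', h1, h2, h3, rfl⟩ | ⟨r', i', k', h1 | h1, rfl⟩
    · exact Or.inl h1
    · rw [cT h1 h3]
      exact Or.inl (winQ hM hk h)
    · simp at h1
    · simp at h1
  | @U r i k σ hk h0 h =>
    rcases lift_moves hM (Or.inl rfl) (okU hk h0) hs' with
      h1 | ⟨v', h1, h2, h3, rfl⟩ | ⟨b, rfl⟩
    · exact Or.inl h1
    · rw [cU h1 h3]
      exact Or.inr (nbS hM hk h0 h)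
    · refine Or.inr (nbU hM hk h0 ?_)
      rw [upd_take_update hk h0]
      exact h
  | @S r i k σ hk h0 hb h =>
    have hS : ∀ r' i' k', V.S r i k = .S r' i' k' → σ (up M r' i' k').1 = (up M r' i' k').2 := by
      intro r' i' k' h'
      obtain ⟨rfl, rfl, rfl⟩ := V.S.inj h'
      exact hb
    rcases rest_moves hM (v := .S r i k) rfl (okS hk h0) (by simp) hS hs' with
      h1 | ⟨v', h1, h2, h3, rfl⟩ | ⟨r', i', k', h1 | h1, rfl⟩
    · exact Or.inl h1
    · rw [cS h1 h3]
      obtain ⟨k', rfl⟩ : ∃ k', k = k' + 1 := ⟨k - 1, by omega⟩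
      refine Or.inr ⟨_, go_rst (v := .Z r i (k' + 1)) (v' := .X r i k') rfl (okZ hk h0)
        (okX (ok3_pred hk)) (by simp [cadj]), .X (ok3_pred hk) ?_⟩
      rw [upd_take hk h0, ← hb, Function.update_eq_self, Nat.add_sub_cancel] at h
      exact h
    · simp at h1
    · obtain ⟨rfl, rfl, rfl⟩ := V.S.inj h1
      exact Or.inr (nbS hM hk h0 h)
  | @B σ =>
    rcases rest_moves hM (v := .B) rfl rfl (by simp) (by simp) hs' with
      h1 | ⟨v', h1, h2, h3, rfl⟩ | ⟨r', i', k', h1 | h1, rfl⟩
    · exact Or.inl h1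
    · right
      cases v' with
      | A => exact ⟨_, go_rst (v := .A) (v' := .B) rfl rfl rfl rfl, .B⟩
      | _ => simp [cadj, isC] at h1 h3
    · simp at h1
    · simp at h1

theorem closeB : ∀ s, NB M s → ∃ s', Gm M s s' ∧ NA M s' := fun _ h => h

/-- The player to move at `G` wins if and only if the machine accepts. -/
theorem win_G (hM : ARMPr M) (σ : ℕ → Bool) :
    N M (some .G, rst M σ) ↔ Der M.2.2 M.2.1 σ := by
  constructor
  · intro h
    by_contra hno
    exact Forces.not_win_of (closeA hM) closeB (NA.G hno) h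
  · intro h
    exact acc hM h .G (Or.inl ⟨rfl, rfl⟩)

/-- the loop -/
def Lp (M : ARM) (s : V → Option ℕ) : Prop :=
  ∃ σ, s = place M (some .A, rst M σ) ∨ s = place M (some .B, rst M σ)

theorem Lp_moves (hM : ARMPr M) : ∀ s, Lp M s → ∀ s', Gm M s s' →
    Forces (Gm M) true s' ∨ Lp M s' := by
  rintro s ⟨σ, rfl | rfl⟩ s' hs'
  · rcases rest_moves hM (v := .A) rfl rfl (by simp) (by simp) hs' with
      h1 | ⟨v', h1, h2, h3, rfl⟩ | ⟨r', i', k', h1 | h1, rfl⟩
    · exact Or.inl h1
    · cases v' with
      | B => exact Or.inr ⟨σ, Or.inr rfl⟩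
      | _ => simp [cadj, isC] at h1 h3
    · simp at h1
    · simp at h1
  · rcases rest_moves hM (v := .B) rfl rfl (by simp) (by simp) hs' with
      h1 | ⟨v', h1, h2, h3, rfl⟩ | ⟨r', i', k', h1 | h1, rfl⟩
    · exact Or.inl h1
    · cases v' with
      | A => exact Or.inr ⟨σ, Or.inl rfl⟩
      | _ => simp [cadj, isC] at h1 h3
    · simp at h1
    · simp at h1

theorem Lp_move : ∀ s, Lp M s → ∃ s', Gm M s s' ∧ Lp M s' := by
  rintro s ⟨σ, rfl | rfl⟩
  · exact ⟨_, go_rst (v := .A) (v' := .B) rfl rfl rfl rfl, σ, Or.inr rfl⟩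
  · exact ⟨_, go_rst (v := .B) (v' := .A) rfl rfl rfl rfl, σ, Or.inl rfl⟩

/-- The player to move at `G` never loses. -/
theorem not_lose_G (hM : ARMPr M) (σ : ℕ → Bool) : ¬ P M (some .G, rst M σ) := by
  intro h
  have hA : ¬ N M (some .A, rst M σ) :=
    Forces.not_win_of (Lp_moves hM) Lp_move ⟨σ, Or.inl rfl⟩
  cases h with
  | lose h => exact hA (h _ (go_rst (v := .G) (v' := .A) rfl rfl rfl rfl))

theorem lose_I (hM : ARMPr M) (σ : ℕ → Bool) :
    P M (some .I, rst M σ) ↔ Der M.2.2 M.2.1 σ := by
  constructor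
  · intro h
    cases h with
    | lose h =>
      rw [← win_G hM]
      exact h _ (go_rst (v := .I) (v' := .G) rfl rfl rfl rfl)
  · intro h
    rw [← win_G hM] at h
    refine .lose fun s' hs' => ?_
    rcases rest_moves hM (v := .I) rfl rfl (by simp) (by simp) hs' with
      h1 | ⟨v', h1, h2, h3, rfl⟩ | ⟨r', i', k', h1 | h1, rfl⟩
    · exact h1
    · cases v' with
      | G => exact h
      | _ => simp [cadj, isC] at h1 h3
    · simp at h1
    · simp at h1

end Pool.Agent.Q224.HT
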