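import Pool.Agent.Q224.HT.Board

/-!
# Hit: the sum of the regions
-/

namespace Pool.Agent.Q224.HT

open Pool.Agent.NPC.ANN (Forces rl pm us up ok3 ok3_iff rl_mem pm_mem up_lt)
open Pool.Agent.H820R2.SS Finset

variable {M : ARM}

/-- the nim sum of the tokens of type 1 -/
def tr (M : ARM) (ρ : ℕ → V) : ℕ := xs (M.1.length + 1) (fun j => gr (ρ j))

/-- the nim value of a control token out of play -/
def gc : Option V → ℕ
  | some (.e k) => k
  | _ => 0

/-- the nim sum -/
def tot (M : ARM) (s : St) : ℕ := gc s.1 ^^^ tr M s.2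

/-- the potential -/
def Ph (M : ARM) (s : St) : ℕ := gc s.1 + ∑ j ∈ range (M.1.length + 1), ph (s.2 j)

theorem tr_update {ρ : ℕ → V} {j : ℕ} (hj : j ≤ M.1.length) (w : V) :
    tr M (Function.update ρ j w) = tr M ρ ^^^ gr (ρ j) ^^^ gr w := by
  unfold tr
  rw [← xs_update (f := fun j => gr (ρ j)) (show j < M.1.length + 1 by omega) (gr w)]
  refine xs_congr fun i _ => ?_
  simp only [Function.update_apply]
  split_ifs <;> rfl

theorem Ph_update {c : Option V} {ρ : ℕ → V} {j : ℕ} (hj : j ≤ M.1.length) (w : V) :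
    Ph M (c, Function.update ρ j w) + ph (ρ j) = Ph M (c, ρ) + ph w := by
  unfold Ph
  have h1 := Finset.sum_erase_add (range (M.1.length + 1)) (fun i => ph (ρ i))
    (mem_range.2 (show j < M.1.length + 1 by omega))
  have h2 := Finset.sum_erase_add (range (M.1.length + 1))
    (fun i => ph (Function.update ρ j w i)) (mem_range.2 (show j < M.1.length + 1 by omega))
  have h3 : ∑ i ∈ (range (M.1.length + 1)).erase j, ph (Function.update ρ j w i) =
      ∑ i ∈ (range (M.1.length + 1)).erase j, ph (ρ i) := by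
    refine Finset.sum_congr rfl fun i hi => ?_
    rw [Function.update_of_ne (Finset.ne_of_mem_erase hi)]
  simp only [Function.update_self] at h2
  rw [← h1, ← h2, h3]
  ring

/-- lowering the nim value of a token -/
theorem lower (hM : ARMPr M) {j : ℕ} {w : V} (hk : ok M w = true) (ho : own M w = some j)
    {m : ℕ} (hm : m < gr w) : ∃ w', ok M w' = true ∧ radj M w w' = true ∧ gr w' = m ∧
      ph w' < ph w := by
  cases w with
  | q i =>
    simp only [gr] at hm
    simp only [ok, decide_eq_true_eq] at hk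
    exact ⟨.d i m, by simp [ok, hk]; omega, by simp [radj], rfl, by simp [ph]; omega⟩
  | d i m' =>
    simp only [gr] at hm
    simp only [ok, Bool.and_eq_true, decide_eq_true_eq] at hk
    exact ⟨.d i m, by simp [ok, hk]; omega, by simp [radj, hm], rfl, by simp [ph]; omega⟩
  | Q r i b =>
    simp only [gr] at hm
    obtain rfl : m = 0 := by omega
    simp only [ok, Bool.and_eq_true, decide_eq_true_eq] at hk
    exact ⟨.z i, by simp [ok, hk], by simp [radj], rfl, by simp [ph]⟩
  | U r i k =>
    simp only [gr] at hm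
    obtain rfl : m = 0 := by omega
    simp only [ok, Bool.and_eq_true, decide_eq_true_eq] at hk
    have := up_lt hM hk.2 hk.1
    exact ⟨.z (up M r i k).1, by simp [ok, this], by simp [radj], rfl, by simp [ph]⟩
  | S r i k =>
    simp only [gr] at hm
    obtain rfl : m = 0 := by omega
    simp only [ok, Bool.and_eq_true, decide_eq_true_eq] at hk
    have := up_lt hM hk.2 hk.1
    exact ⟨.z (up M r i k).1, by simp [ok, this], by simp [radj], rfl, by simp [ph]⟩
  | D1 =>
    simp only [gr] at hm
    obtain rfl : m = 0 := by omega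
    exact ⟨.D0, rfl, rfl, rfl, by simp [ph]⟩
  | _ => simp [gr] at hm

/-- a move of a token lowers its nim value, or can be answered -/
theorem raise (hM : ARMPr M) {w w' : V} (hk : ok M w = true) (hk' : ok M w' = true)
    (h : radj M w w' = true) :
    (gr w' < gr w ∧ ph w' < ph w) ∨
    (∃ w'', ok M w'' = true ∧ radj M w' w'' = true ∧ gr w'' = gr w ∧ ph w'' < ph w) := by
  cases w with
  | p j b =>
    right
    cases w' with
    | q j' =>
      simp only [ok, decide_eq_true_eq] at hk'
      exact ⟨.d j' 0, by simp [ok, hk'], by simp [radj], rfl, by simp [ph]⟩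
    | Q r j' b' =>
      simp only [ok, Bool.and_eq_true, decide_eq_true_eq] at hk'
      exact ⟨.z j', by simp [ok, hk'], by simp [radj], rfl, by simp [ph]⟩
    | S r i k =>
      simp only [ok, Bool.and_eq_true, decide_eq_true_eq] at hk'
      have := up_lt hM hk'.2 hk'.1
      exact ⟨.z (up M r i k).1, by simp [ok, this], by simp [radj], rfl, by simp [ph]⟩
    | _ => simp [radj] at h
  | q j =>
    left
    cases w' with
    | p j' b =>
      simp only [radj, decide_eq_true_eq] at h
      subst h
      simp [gr, ph]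
    | d j' m =>
      simp only [radj, decide_eq_true_eq] at h
      subst h
      simp only [ok, Bool.and_eq_true, decide_eq_true_eq] at hk'
      simp only [gr, ph]
      omega
    | _ => simp [radj] at h
  | d j m =>
    cases w' with
    | d j' m' =>
      simp only [radj, Bool.and_eq_true, decide_eq_true_eq] at h
      left
      simp only [gr, ph]
      omega
    | U r i k =>
      right
      simp only [radj, Bool.and_eq_true, decide_eq_true_eq] at h
      simp only [ok, Bool.and_eq_true, decide_eq_true_eq] at hk'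
      have := up_lt hM hk'.2 hk'.1
      exact ⟨.z (up M r i k).1, by simp [ok, this], by simp [radj], by simp [gr, h.1],
        by simp [ph]⟩
    | S r i k =>
      right
      simp only [radj, Bool.and_eq_true, decide_eq_true_eq] at h
      simp only [ok, Bool.and_eq_true, decide_eq_true_eq] at hk'
      have := up_lt hM hk'.2 hk'.1
      exact ⟨.z (up M r i k).1, by simp [ok, this], by simp [radj], by simp [gr, h.1],
        by simp [ph]⟩
    | _ => simp [radj] at h
  | Q r j b => cases w' <;> simp_all [radj, gr, ph]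
  | U r i k => cases w' <;> simp_all [radj, gr, ph]
  | S r i k => cases w' <;> simp_all [radj, gr, ph]
  | D1 => cases w' <;> simp_all [radj, gr, ph]
  | _ => cases w' <;> simp [radj] at h

/-- The control token is out of play. -/
def Pure (M : ARM) (s : St) : Prop :=
  Val M s.2 ∧ (s.1 = none ∨ ∃ k, k < KK M ∧ s.1 = some (.e k))

theorem Pure.hov {c : Option V} {ρ : ℕ → V} (h : Pure M (c, ρ)) :
    ∀ v, c = some v → ∀ j, own M v = some j → ρ j ≠ v := by
  rintro v rfl j hj
  rcases h.2 with h | ⟨k, -, h⟩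
  · simp at h
  · rw [Option.some.inj h] at hj
    simp [own] at hj

theorem Pure.ne {c : Option V} {ρ : ℕ → V} (h : Pure M (c, ρ)) {w : V} {j : ℕ}
    (ho : own M w = some j) : c ≠ some w := by
  rcases h.2 with h | ⟨k, -, h⟩
  · simp only at h
    rw [h]
    simp
  · simp only at h
    rw [h]
    intro h2
    rw [← Option.some.inj h2] at ho
    simp [own] at ho

/-- a move of a token of type 1 in a pure position -/
theorem Pure.rg {c : Option V} {ρ : ℕ → V} (h : Pure M (c, ρ)) {j : ℕ} (hj : j ≤ M.1.length)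
    {w' : V} (hk' : ok M w' = true) (hr : radj M (ρ j) w' = true) :
    Gm M (place M (c, ρ)) (place M (c, Function.update ρ j w')) ∧
      Pure M (c, Function.update ρ j w') := by
  have ho : own M w' = some j := by
    rw [← radj_own hr]
    exact (h.1.1 j hj).2
  have h1 := mv_rg h.1 hj hk' hr (h.ne (h.1.1 j hj).2)
  rw [if_neg (h.ne ho)] at h1
  exact ⟨h1, h.1.update hj hk' ho, h.2⟩

theorem reply (hM : ARMPr M) {s : St} (hs : Pure M s) (ht : tot M s ≠ 0) :
    ∃ s' : St, Gm M (place M s) (place M s') ∧ Pure M s' ∧ tot M s' = 0 ∧ Ph M s' < Ph M s := by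
  obtain ⟨c, ρ⟩ := s
  have hρ : Val M ρ := hs.1
  rcases nim_move (c := gc c) (n := M.1.length + 1) (f := fun j => gr (ρ j)) ht with
    h | ⟨j, hj, h⟩
  · rcases hs.2 with hc | ⟨k, hk, hc⟩
    · simp only at hc
      subst hc
      simp [gc] at h
    · simp only at hc
      subst hc
      simp only [gc] at h
      set m := k ^^^ (k ^^^ xs (M.1.length + 1) (fun j => gr (ρ j))) with hm
      have hm' : m < KK M := by omega
      refine ⟨(some (.e m), ρ), mv_ctl (by simpa [ok] using hk) (by simpa [ok] using hm')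
        (by simpa [cadj, exi] using h) (by simp [own]), ⟨hs.1, Or.inr ⟨m, hm', rfl⟩⟩, ?_, ?_⟩
      · show m ^^^ tr M ρ = 0
        rw [hm]
        show k ^^^ (k ^^^ tr M ρ) ^^^ tr M ρ = 0
        rw [Nat.xor_assoc, Nat.xor_assoc, Nat.xor_self, Nat.xor_zero, Nat.xor_self]
      · show m + _ < k + _
        simp only
        omega
  · have hj' : j ≤ M.1.length := by omega
    obtain ⟨h1, h2⟩ := hρ.1 j hj'
    obtain ⟨w', h3, h4, h5, h6⟩ := lower hM h1 h2 h
    obtain ⟨h7, h8⟩ := hs.rg hj' h3 h4
    refine ⟨(c, Function.update ρ j w'), h7, h8, ?_, ?_⟩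
    · show gc c ^^^ tr M (Function.update ρ j w') = 0
      rw [tr_update hj', h5]
      show gc c ^^^ (tr M ρ ^^^ gr (ρ j) ^^^ (gr (ρ j) ^^^ (gc c ^^^ tr M ρ))) = 0
      have : tr M ρ ^^^ gr (ρ j) ^^^ (gr (ρ j) ^^^ (gc c ^^^ tr M ρ)) = gc c := by
        rw [Nat.xor_assoc, ← Nat.xor_assoc (gr (ρ j)), Nat.xor_self, Nat.zero_xor,
          Nat.xor_comm (gc c), ← Nat.xor_assoc, Nat.xor_self, Nat.zero_xor]
      rw [this, Nat.xor_self]
    · have := Ph_update (c := c) (ρ := ρ) hj' w'
      omega

theorem xor_ne {a b c : ℕ} (h : a ≠ b) : c ^^^ a ≠ c ^^^ b := by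
  intro h2
  apply h
  have h3 : c ^^^ (c ^^^ a) = c ^^^ (c ^^^ b) := by rw [h2]
  rwa [← Nat.xor_assoc, ← Nat.xor_assoc, Nat.xor_self, Nat.zero_xor, Nat.zero_xor] at h3

theorem pure_zero (hM : ARMPr M) : ∀ (n : ℕ) (s : St), Pure M s → Ph M s ≤ n → tot M s = 0 →
    P M s := by
  intro n
  induction n using Nat.strong_induction_on with
  | _ n ih =>
    rintro ⟨c, ρ⟩ hs hn h0
    have hρ : Val M ρ := hs.1
    -- a reply after a move which lowers the potential and changes the sum
    have key : ∀ s' : St, Pure M s' → Ph M s' ≤ Ph M (c, ρ) → tot M s' ≠ 0 → N M s' := by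
      intro s' h1 h2 h3
      obtain ⟨s'', h4, h5, h6, h7⟩ := reply hM h1 h3
      exact .win h4 (ih (Ph M s'') (by omega) _ h5 le_rfl h6)
    refine .lose fun P' hP' => ?_
    rcases moves hρ hs.hov hP' with ⟨v, v', rfl, hk', hc, rfl⟩ | ⟨j, w', hj, hk', hr, rfl⟩
    · rcases hs.2 with h | ⟨k, hk, h⟩
      · simp at h
      · rw [Option.some.inj h] at hc hs h0
        cases v' with
        | e m =>
          have hmk : m < k := by simpa [cadj, exi] using hc
          refine key _ ⟨hs.1, Or.inr ⟨m, by omega, rfl⟩⟩ ?_ ?_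
          · rw [Option.some.inj h]
            show m + _ ≤ k + _
            simp only
            omega
          · show m ^^^ tr M ρ ≠ 0
            have h1 : k ^^^ tr M ρ = 0 := h0
            rw [← h1, Nat.xor_comm m, Nat.xor_comm k]
            exact xor_ne (by omega)
        | _ => simp [cadj] at hc
    · obtain ⟨h1, h2⟩ := hs.rg hj hk' hr
      have hne : ¬ c = some w' := by
        refine hs.ne (j := j) ?_
        rw [← radj_own hr]
        exact (hρ.1 j hj).2
      rw [if_neg hne]
      have hph := Ph_update (c := c) (ρ := ρ) hj w'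
      rcases raise hM (hρ.1 j hj).1 hk' hr with ⟨h3, h4⟩ | ⟨w'', h3, h4, h5, h6⟩
      · refine key _ h2 (by omega) ?_
        show gc c ^^^ tr M (Function.update ρ j w') ≠ 0
        rw [tr_update hj]
        have h5 : gc c ^^^ tr M ρ = 0 := h0
        rw [← Nat.xor_assoc, ← Nat.xor_assoc, h5, Nat.zero_xor]
        intro h6
        rw [Nat.xor_eq_zero_iff] at h6
        omega
      · obtain ⟨h7, h8⟩ := h2.rg hj h3 (by rwa [Function.update_self])
        rw [Function.update_idem] at h7 h8
        have hph2 := Ph_update (c := c) (ρ := ρ) hj w''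
        refine .win h7 (ih (Ph M (c, Function.update ρ j w'')) (by omega) _ h8 le_rfl ?_)
        show gc c ^^^ tr M (Function.update ρ j w'') = 0
        rw [tr_update hj, h5, Nat.xor_assoc (tr M ρ), Nat.xor_self, Nat.xor_zero]
        exact h0

theorem pure_lose (hM : ARMPr M) {s : St} (hs : Pure M s) (h : tot M s = 0) : P M s :=
  pure_zero hM _ s hs le_rfl h

theorem pure_win (hM : ARMPr M) {s : St} (hs : Pure M s) (h : tot M s ≠ 0) : N M s := by
  obtain ⟨s', h1, h2, h3, -⟩ := reply hM hs h
  exact .win h1 (pure_lose hM h2 h3)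

/-- winning by an exit -/
theorem exit_win (hM : ARMPr M) {v : V} {ρ : ℕ → V} (hρ : Val M ρ) (hv : ok M v = true)
    (hov : ∀ j, own M v = some j → ρ j ≠ v) (hK : tr M ρ < KK M)
    (he : exi M v (tr M ρ) = true) : N M (some v, ρ) := by
  refine .win (mv_ctl hv (v' := .e (tr M ρ)) (by simpa [ok] using hK) (by simpa [cadj] using he)
    hov) (pure_lose hM ⟨hρ, Or.inr ⟨_, hK, rfl⟩⟩ ?_)
  show tr M ρ ^^^ tr M ρ = 0
  exact Nat.xor_self _

/-- winning by removing the control token -/
theorem cap_win (hM : ARMPr M) {v : V} {ρ : ℕ → V} (hρ : Val M ρ) {j : ℕ} (hj : j ≤ M.1.length)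
    (hv : ok M v = true) (hr : radj M (ρ j) v = true)
    (ht : tr M ρ ^^^ gr (ρ j) ^^^ gr v = 0) : N M (some v, ρ) := by
  have ho : own M v = some j := by
    rw [← radj_own hr]
    exact (hρ.1 j hj).2
  have h1 := mv_rg (c := some v) hρ hj hv hr (fun h => radj_ne hr (Option.some.inj h).symm)
  rw [if_pos rfl] at h1
  refine .win h1 (pure_lose hM ⟨hρ.update hj hv ho, Or.inl rfl⟩ ?_)
  show 0 ^^^ tr M (Function.update ρ j v) = 0
  rw [tr_update hj, ht]
  rfl

end Pool.Agent.Q224.HT
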