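import Pool.Agent.Q224.HT.Pure

/-!
# Hit: the simulation
-/

namespace Pool.Agent.Q224.HT

open Pool.Agent.NPC.ANN (Forces rl pm us up ok3 ok3_iff rl_mem pm_mem up_lt upd_take upd_nil
  upd_take_update)
open Pool.Agent.H820R2.SS

variable {M : ARM}

/-- all registers hold values -/
def rst (M : ARM) (σ : ℕ → Bool) : ℕ → V := fun j => if j < M.1.length then .p j (σ j) else .D1

/-- register `j` is lifted -/
def lf (M : ARM) (σ : ℕ → Bool) (j : ℕ) : ℕ → V := Function.update (rst M σ) j (.q j)

/-- the control vertices -/
def isC : V → Bool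
  | .G => true
  | .I => true
  | .A => true
  | .B => true
  | .R _ => true
  | .T _ _ _ => true
  | .Q _ _ _ => true
  | .X _ _ _ => true
  | .U _ _ _ => true
  | .S _ _ _ => true
  | .Z _ _ _ => true
  | _ => false

theorem rst_lt {σ : ℕ → Bool} {j : ℕ} (hj : j < M.1.length) : rst M σ j = .p j (σ j) := by
  rw [rst, if_pos hj]

theorem rst_ge {σ : ℕ → Bool} {j : ℕ} (hj : ¬ j < M.1.length) : rst M σ j = .D1 := by
  rw [rst, if_neg hj]

theorem rst_val (σ : ℕ → Bool) : Val M (rst M σ) := by
  refine ⟨fun j hj => ?_, fun j hj => ?_⟩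
  · by_cases h : j < M.1.length
    · rw [rst_lt h]
      exact ⟨by simpa [ok] using h, rfl⟩
    · rw [rst_ge h]
      obtain rfl : j = M.1.length := by omega
      exact ⟨rfl, rfl⟩
  · rw [rst_ge (by omega)]

theorem lf_val {σ : ℕ → Bool} {j : ℕ} (hj : j < M.1.length) : Val M (lf M σ j) :=
  (rst_val σ).update hj.le (by simpa [ok] using hj) rfl

theorem lf_self {σ : ℕ → Bool} {j : ℕ} : lf M σ j j = .q j := by simp [lf]

theorem lf_ne {σ : ℕ → Bool} {j i : ℕ} (h : i ≠ j) : lf M σ j i = rst M σ i := by simp [lf, h]

theorem lf_set {σ : ℕ → Bool} {j : ℕ} (hj : j < M.1.length) (b : Bool) :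
    Function.update (lf M σ j) j (.p j b) = rst M (Function.update σ j b) := by
  funext i
  simp only [lf, Function.update_apply, rst]
  split_ifs with h1 h2 h3 <;> simp_all

theorem rst_reg (σ : ℕ → Bool) (j : ℕ) : reg (rst M σ j) = true := by
  by_cases h : j < M.1.length
  · rw [rst_lt h]; rfl
  · rw [rst_ge h]; rfl

theorem lf_reg (σ : ℕ → Bool) (j i : ℕ) : reg (lf M σ j i) = true := by
  by_cases h : i = j
  · subst h
    rw [lf_self]; rfl
  · rw [lf_ne h]
    exact rst_reg σ i

theorem isC_reg {v : V} (h : isC v = true) : reg v = false := by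
  cases v <;> simp_all [isC, reg]

theorem tr_rst (σ : ℕ → Bool) : tr M (rst M σ) = 1 := by
  unfold tr
  rw [xs, rst_ge (by omega)]
  have : xs M.1.length (fun j => gr (rst M σ j)) = 0 := by
    have h : ∀ n, n ≤ M.1.length → xs n (fun j => gr (rst M σ j)) = 0 := by
      intro n
      induction n with
      | zero => intro _; rfl
      | succ n ih =>
        intro hn
        rw [xs, ih (by omega), rst_lt (by omega)]
        simp [gr]
    exact h _ le_rfl
  rw [this]
  rfl

theorem tr_lf {σ : ℕ → Bool} {j : ℕ} (hj : j < M.1.length) : tr M (lf M σ j) = 2 * j + 3 := by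
  unfold lf
  rw [tr_update hj.le, tr_rst, rst_lt hj]
  have := one_xor_even (j + 1)
  show 1 ^^^ 0 ^^^ (2 * j + 2) = _
  rw [Nat.xor_zero, show 2 * j + 2 = 2 * (j + 1) by ring, this]
  ring

/-- ordinary control vertices -/
theorem exi_zero {v : V} (hv : isC v = true) : exi M v 0 = true := by
  cases v <;> simp_all [isC, exi]

theorem exi_even {v : V} (hv : isC v = true) (m : ℕ) : exi M v (2 * m) = true := by
  cases v <;> simp_all [isC, exi] <;> omega

theorem exi_ne {v : V} (hv : isC v = true) {m : ℕ} (h : exi M v m = true) : m ≠ 1 := by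
  rintro rfl
  cases v <;> simp_all [isC, exi]

/-- the control token at a vertex, a token of type 1 has just left its legal place -/
theorem dev (hM : ARMPr M) {v : V} {ρ : ℕ → V} (hv : isC v = true) (hk : ok M v = true)
    (hρ : Val M ρ) (hr : ∀ j, reg (ρ j) = true) {j : ℕ} {w' : V} (hj : j ≤ M.1.length)
    (hk' : ok M w' = true) (hra : radj M (ρ j) w' = true) (hne : w' ≠ v)
    (hK : tr M ρ ^^^ gr (ρ j) ^^^ gr w' < KK M)
    (he : exi M v (tr M ρ ^^^ gr (ρ j) ^^^ gr w') = true) :
    N M (if some v = some w' then none else some v, Function.update ρ j w') := by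
  rw [if_neg (fun h => hne (Option.some.inj h).symm)]
  have ho : own M w' = some j := by
    rw [← radj_own hra]
    exact (hρ.1 j hj).2
  have h1 := tr_update (M := M) (ρ := ρ) hj w'
  refine exit_win hM (hρ.update hj hk' ho) hk ?_ (by rw [h1]; exact hK) (by rw [h1]; exact he)
  intro i _
  simp only [Function.update_apply]
  split_ifs with h2
  · exact hne
  · intro h3
    have := hr i
    rw [h3, isC_reg hv] at this
    exact absurd this (by decide)

theorem reg_ne {v : V} {ρ : ℕ → V} (hv : isC v = true) (hr : ∀ j, reg (ρ j) = true) :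
    ∀ j, own M v = some j → ρ j ≠ v := by
  intro j _ h
  have := hr j
  rw [h, isC_reg hv] at this
  exact absurd this (by decide)

/-- The moves when all registers hold values. -/
theorem rest_moves (hM : ARMPr M) {v : V} {σ : ℕ → Bool} {P' : V → Option ℕ} (hv : isC v = true)
    (hk : ok M v = true) (hQ : ∀ r j b, v = .Q r j b → σ j = b)
    (hS : ∀ r i k, v = .S r i k → σ (up M r i k).1 = (up M r i k).2)
    (h : Gm M (place M (some v, rst M σ)) P') : Forces (Gm M) true P' ∨
      (∃ v', isC v' = true ∧ ok M v' = true ∧ cadj M v v' = true ∧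
        P' = place M (some v', rst M σ)) ∨
      ∃ r i k, (v = .U r i k ∨ v = .S r i k) ∧ P' = place M (some v, lf M σ (up M r i k).1) := by
  have hreg := rst_reg (M := M) σ
  have hKK : KK M = 4 * M.1.length + 4 := rfl
  rcases moves (rst_val σ) (fun v' hv' => Option.some.inj hv' ▸ reg_ne hv hreg) h with
    ⟨v0, v', h0, hk', hc, rfl⟩ | ⟨j, w', hj, hk', hr, rfl⟩
  · rw [← Option.some.inj h0] at hc
    by_cases hc' : isC v' = true
    · exact Or.inr (Or.inl ⟨v', hc', hk', hc, rfl⟩)
    · left
      cases v' with
      | e m =>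
        have hm : m < KK M := by simpa [ok] using hk'
        refine pure_win hM ⟨rst_val σ, Or.inr ⟨m, hm, rfl⟩⟩ ?_
        show m ^^^ tr M (rst M σ) ≠ 0
        rw [tr_rst]
        have := exi_ne hv (show exi M v m = true from by simpa [cadj] using hc)
        intro h2
        rw [Nat.xor_eq_zero_iff] at h2
        exact this h2
      | _ => cases v <;> simp_all [cadj, isC]
  · have hd := dev hM hv hk (rst_val σ) hreg hj hk' hr
    rw [tr_rst] at hd
    by_cases hjn : j < M.1.length
    · rw [rst_lt hjn] at hr hd
      cases w' with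
      | q j' =>
        simp only [radj, decide_eq_true_eq] at hr
        subst hr
        have h1 : 1 ^^^ gr (.p j (σ j)) ^^^ gr (.q j) = 2 * j + 3 := by
          show 1 ^^^ 0 ^^^ (2 * j + 2) = _
          have := one_xor_even (j + 1)
          rw [Nat.xor_zero, show 2 * j + 2 = 2 * (j + 1) by ring, this]
          ring
        rw [h1] at hd
        have hvq : ¬ (some v = some (V.q j)) := by
          intro h2
          rw [Option.some.inj h2] at hv
          simp [isC] at hv
        by_cases hUS : ∃ r i k, (v = .U r i k ∨ v = .S r i k) ∧ j = (up M r i k).1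
        · obtain ⟨r, i, k, h2, rfl⟩ := hUS
          right; right
          refine ⟨r, i, k, h2, ?_⟩
          rw [if_neg hvq]
          rfl
        · left
          refine hd (fun h2 => hvq (by rw [h2])) (by omega) ?_
          push Not at hUS
          cases v with
          | U r i k =>
            have := hUS r i k (Or.inl rfl)
            simp only [exi, Bool.and_eq_true, Bool.not_eq_true', decide_eq_false_iff_not]
            omega
          | S r i k =>
            have := hUS r i k (Or.inr rfl)
            simp only [exi, Bool.and_eq_true, Bool.not_eq_true', decide_eq_false_iff_not]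
            omega
          | _ => simp_all [exi, isC]
      | Q r j' b' =>
        left
        simp only [radj, Bool.and_eq_true, decide_eq_true_eq] at hr
        obtain ⟨rfl, rfl⟩ := hr
        have h1 : 1 ^^^ gr (.p j (σ j)) ^^^ gr (.Q r j (!σ j)) = 0 := by simp [gr]
        rw [h1] at hd
        refine hd ?_ (by omega) (exi_zero hv)
        intro h2
        have := hQ _ _ _ h2.symm
        cases hσ : σ j <;> simp [hσ] at this
      | S r i k =>
        left
        simp only [radj, Bool.and_eq_true, decide_eq_true_eq] at hr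
        obtain ⟨rfl, hr2⟩ := hr
        have h1 : 1 ^^^ gr (.p (up M r i k).1 (σ (up M r i k).1)) ^^^ gr (.S r i k) = 0 := by
          simp [gr]
        rw [h1] at hd
        refine hd ?_ (by omega) (exi_zero hv)
        intro h2
        have := hS _ _ _ h2.symm
        rw [this] at hr2
        cases hσ : (up M r i k).2 <;> simp [hσ] at hr2
      | _ => simp [radj] at hr
    · rw [rst_ge hjn] at hr hd
      left
      cases w' with
      | D0 =>
        have h1 : 1 ^^^ gr .D1 ^^^ gr .D0 = 0 := by simp [gr]
        rw [h1] at hd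
        refine hd ?_ (by omega) (exi_zero hv)
        rintro rfl
        simp [isC] at hv
      | _ => simp [radj] at hr

/-- The moves when a register is lifted. -/
theorem lift_moves (hM : ARMPr M) {v : V} {σ : ℕ → Bool} {P' : V → Option ℕ} {r i k : ℕ}
    (hv : v = .U r i k ∨ v = .S r i k) (hk : ok M v = true)
    (h : Gm M (place M (some v, lf M σ (up M r i k).1)) P') : Forces (Gm M) true P' ∨
      (∃ v', isC v' = true ∧ ok M v' = true ∧ cadj M v v' = true ∧
        P' = place M (some v', lf M σ (up M r i k).1)) ∨
      ∃ b, P' = place M (some v, rst M (Function.update σ (up M r i k).1 b)) := by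
  have hvC : isC v = true := by rcases hv with rfl | rfl <;> rfl
  have hok3 : 0 < k ∧ ok3 M r i k = true := by
    rcases hv with rfl | rfl <;> simpa [ok] using hk
  have hj0 := up_lt hM hok3.2 hok3.1
  have hexi : ∀ m, exi M v m = true ↔ m ≠ 1 ∧ m ≠ 2 * (up M r i k).1 + 3 := by
    intro m
    rcases hv with rfl | rfl <;> simp [exi]
  have hown : own M v = some (up M r i k).1 := by rcases hv with rfl | rfl <;> rfl
  have hdv : ∀ j', radj M (.d j' 0) v = true ↔ j' = (up M r i k).1 := by
    intro j'
    rcases hv with rfl | rfl <;> simp [radj]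
  set j0 := (up M r i k).1 with hj0d
  have hreg := lf_reg (M := M) σ j0
  have hval := lf_val (M := M) (σ := σ) hj0
  have hKK : KK M = 4 * M.1.length + 4 := rfl
  rcases moves hval (fun v' hv' => Option.some.inj hv' ▸ reg_ne hvC hreg) h with
    ⟨v0, v', h0, hk', hc, rfl⟩ | ⟨j, w', hj, hk', hr, rfl⟩
  · rw [← Option.some.inj h0] at hc
    by_cases hc' : isC v' = true
    · exact Or.inr (Or.inl ⟨v', hc', hk', hc, rfl⟩)
    · left
      cases v' with
      | e m =>
        have hm : m < KK M := by simpa [ok] using hk'
        refine pure_win hM ⟨hval, Or.inr ⟨m, hm, rfl⟩⟩ ?_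
        show m ^^^ tr M (lf M σ j0) ≠ 0
        rw [tr_lf hj0]
        have := ((hexi m).1 (by simpa [cadj] using hc)).2
        intro h2
        rw [Nat.xor_eq_zero_iff] at h2
        exact this h2
      | _ => rcases hv with rfl | rfl <;> simp_all [cadj, isC]
  · have hd := dev hM hvC hk hval hreg hj hk' hr
    rw [tr_lf hj0] at hd
    have hx3 : 2 * j0 + 3 = 1 ^^^ (2 * j0 + 2) := by
      have := one_xor_even (j0 + 1)
      rw [show 2 * j0 + 2 = 2 * (j0 + 1) by ring, this]
      ring
    have hx2 : (2 * j0 + 3) ^^^ 1 = 2 * j0 + 2 := by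
      rw [hx3, Nat.xor_comm, ← Nat.xor_assoc, Nat.xor_self, Nat.zero_xor]
    have hvne : ∀ j' w'', own M w'' = some j' → j' ≠ j0 → w'' ≠ v := by
      rintro j' w'' h1 h2 rfl
      rw [hown] at h1
      exact h2 (Option.some.inj h1).symm
    by_cases hjj : j = j0
    · subst hjj
      rw [lf_self] at hr hd
      cases w' with
      | p j' b =>
        simp only [radj, decide_eq_true_eq] at hr
        subst hr
        right; right
        refine ⟨b, ?_⟩
        rw [if_neg ?_, lf_set hj0]
        intro h2
        rw [Option.some.inj h2] at hvC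
        simp [isC] at hvC
      | d j' m =>
        simp only [radj, decide_eq_true_eq] at hr
        subst hr
        left
        have hvd : V.d j0 m ≠ v := by
          rintro rfl
          simp [isC] at hvC
        have hm : m < 2 * j0 + 2 := by
          simp only [ok, Bool.and_eq_true, decide_eq_true_eq] at hk'
          exact hk'.2
        have h1 : (2 * j0 + 3) ^^^ gr (.q j0) ^^^ gr (.d j0 m) = 1 ^^^ m := by
          show (2 * j0 + 3) ^^^ (2 * j0 + 2) ^^^ m = _
          rw [hx3, Nat.xor_assoc 1, Nat.xor_self, Nat.xor_zero]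
        by_cases hm0 : m = 0
        · subst hm0
          rw [if_neg (fun h2 => hvd (Option.some.inj h2).symm)]
          refine cap_win hM (hval.update hj hk' rfl) (j := j0) hj hk ?_ ?_
          · rw [Function.update_self]
            exact (hdv j0).2 rfl
          · rw [tr_update hj, tr_lf hj0, lf_self, h1, Function.update_self]
            show 1 ^^^ 0 ^^^ 0 ^^^ gr v = 0
            have : gr v = 1 := by rcases hv with rfl | rfl <;> rfl
            rw [this]
            rfl
        · rw [h1] at hd
          refine hd hvd ?_ ((hexi _).2 ⟨?_, ?_⟩)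
          · have := xor_le_add' 1 m
            omega
          · intro h2
            have : 1 ^^^ m ≠ 1 ^^^ 0 := xor_ne hm0
            rw [Nat.xor_zero] at this
            exact this h2
          · rw [hx3]
            exact xor_ne (by omega)
      | _ => simp [radj] at hr
    · left
      rw [lf_ne hjj] at hr hd
      have ho : own M w' = some j := by
        rw [← radj_own hr]
        exact ((rst_val σ).1 j hj).2
      have hne := hvne j w' ho hjj
      by_cases hjn : j < M.1.length
      · rw [rst_lt hjn] at hr hd
        cases w' with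
        | q j' =>
          simp only [radj, decide_eq_true_eq] at hr
          subst hr
          have h1 : (2 * j0 + 3) ^^^ gr (.p j (σ j)) ^^^ gr (.q j) =
              (2 * j0 + 3) ^^^ (2 * j + 2) := by
            show (2 * j0 + 3) ^^^ 0 ^^^ (2 * j + 2) = _
            rw [Nat.xor_zero]
          rw [h1] at hd
          refine hd hne ?_ ((hexi _).2 ⟨?_, ?_⟩)
          · have := xor_le_add' (2 * j0 + 3) (2 * j + 2)
            omega
          · rw [hx3, Nat.xor_assoc]
            intro h2
            have h3 : 1 ^^^ ((2 * j0 + 2) ^^^ (2 * j + 2)) = 1 ^^^ 0 := by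
              rw [h2, Nat.xor_zero]
            have h4 : (2 * j0 + 2) ^^^ (2 * j + 2) = 0 := by
              by_contra hno
              exact xor_ne hno h3
            rw [Nat.xor_eq_zero_iff] at h4
            omega
          · intro h2
            have h3 : (2 * j0 + 3) ^^^ (2 * j + 2) = (2 * j0 + 3) ^^^ 0 := by
              rw [h2, Nat.xor_zero]
            exact xor_ne (show 2 * j + 2 ≠ 0 by omega) h3
        | Q r' j' b' =>
          have h1 : (2 * j0 + 3) ^^^ gr (.p j (σ j)) ^^^ gr (.Q r' j' b') = 2 * j0 + 2 := by
            show (2 * j0 + 3) ^^^ 0 ^^^ 1 = _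
            rw [Nat.xor_zero, hx2]
          rw [h1] at hd
          exact hd hne (by omega) ((hexi _).2 ⟨by omega, by omega⟩)
        | S r' i' k' =>
          have h1 : (2 * j0 + 3) ^^^ gr (.p j (σ j)) ^^^ gr (.S r' i' k') = 2 * j0 + 2 := by
            show (2 * j0 + 3) ^^^ 0 ^^^ 1 = _
            rw [Nat.xor_zero, hx2]
          rw [h1] at hd
          exact hd hne (by omega) ((hexi _).2 ⟨by omega, by omega⟩)
        | _ => simp [radj] at hr
      · rw [rst_ge hjn] at hr hd
        cases w' with
        | D0 =>
          have h1 : (2 * j0 + 3) ^^^ gr .D1 ^^^ gr .D0 = 2 * j0 + 2 := by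
            show (2 * j0 + 3) ^^^ 1 ^^^ 0 = _
            rw [Nat.xor_zero, hx2]
          rw [h1] at hd
          exact hd hne (by omega) ((hexi _).2 ⟨by omega, by omega⟩)
        | _ => simp [radj] at hr

end Pool.Agent.Q224.HT
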